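import Pool.Agent.H97.NF.Targets

/-!
# Product laws of pairs of environments: zipping, marginals, updating, gluing, exchange,
independence over disjoint sets
-/

open MeasureTheory ProbabilityTheory Filter Topology
open scoped ENNReal

namespace Pool.Agent.H97.NF

open Pool.Agent.H99.NS

/-! ### Zipping -/

theorem zip_pi {γ : Type*} [Fintype γ] {X Y : γ → Type*} [∀ i, MeasurableSpace (X i)]
    [∀ i, MeasurableSpace (Y i)] (μ : ∀ i, Measure (X i)) (ν : ∀ i, Measure (Y i))
    [∀ i, IsProbabilityMeasure (μ i)] [∀ i, IsProbabilityMeasure (ν i)] :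
    ((Measure.pi μ).prod (Measure.pi ν)).map
      (fun (p : (∀ i, X i) × (∀ i, Y i)) (i : γ) => (p.1 i, p.2 i)) =
      Measure.pi (fun i => (μ i).prod (ν i)) := by
  symm
  refine Measure.pi_eq_generateFrom
    (C := fun i => Set.image2 (fun (s : Set (X i)) (t : Set (Y i)) => s ×ˢ t)
      {s | MeasurableSet s} {t | MeasurableSet t})
    (fun i => generateFrom_prod) (fun i => isPiSystem_prod) (fun i => ?_) ?_
  · exact ⟨fun _ => Set.univ, fun _ => ⟨Set.univ, MeasurableSet.univ, Set.univ,
      MeasurableSet.univ, Set.univ_prod_univ⟩, fun _ => measure_lt_top _ _, Set.iUnion_const _⟩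
  · intro s hs
    choose a ha b hb hab using hs
    have hm : Measurable (fun (p : (∀ i, X i) × (∀ i, Y i)) (i : γ) => (p.1 i, p.2 i)) := by
      fun_prop
    have hsm : ∀ i, MeasurableSet (s i) := fun i => by
      rw [← hab i]
      exact MeasurableSet.prod (ha i) (hb i)
    rw [Measure.map_apply hm (MeasurableSet.univ_pi hsm)]
    have hset : (fun (p : (∀ i, X i) × (∀ i, Y i)) (i : γ) => (p.1 i, p.2 i)) ⁻¹'
        (Set.univ.pi s) = (Set.univ.pi a) ×ˢ (Set.univ.pi b) := by
      ext p
      simp only [Set.mem_preimage, Set.mem_univ_pi, Set.mem_prod, ← hab, forall_and]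
    rw [hset, Measure.prod_prod, Measure.pi_pi, Measure.pi_pi, ← Finset.prod_mul_distrib]
    refine Finset.prod_congr rfl fun i _ => ?_
    rw [← hab i, Measure.prod_prod]

/-- Zipping, for arbitrary universes. -/
theorem mp_zip {ι : Type*} {X Y : ι → Type*} [∀ i, MeasurableSpace (X i)]
    [∀ i, MeasurableSpace (Y i)] (μ : ∀ i, Measure (X i)) (ν : ∀ i, Measure (Y i))
    [∀ i, IsProbabilityMeasure (μ i)] [∀ i, IsProbabilityMeasure (ν i)] :
    MeasurePreserving (fun (p : (∀ i, X i) × (∀ i, Y i)) (i : ι) => (p.1 i, p.2 i))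
      ((Measure.infinitePi μ).prod (Measure.infinitePi ν))
      (Measure.infinitePi (fun i => (μ i).prod (ν i))) := by
  have hm : Measurable (fun (p : (∀ i, X i) × (∀ i, Y i)) (i : ι) => (p.1 i, p.2 i)) := by
    fun_prop
  refine ⟨hm, ?_⟩
  refine Measure.eq_infinitePi (fun i => (μ i).prod (ν i)) fun s t ht => ?_
  rw [Measure.map_apply hm (MeasurableSet.pi s.countable_toSet fun i _ => ht i)]
  have hset : (fun (p : (∀ i, X i) × (∀ i, Y i)) (i : ι) => (p.1 i, p.2 i)) ⁻¹'
      ((s : Set ι).pi t) = (Prod.map (s.restrict (π := X)) (s.restrict (π := Y))) ⁻¹'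
        ((fun (p : (∀ i : s, X i) × (∀ i : s, Y i)) (i : s) => (p.1 i, p.2 i)) ⁻¹'
          (Set.univ.pi (fun i : s => t i))) := by
    ext p
    simp [Set.mem_pi]
  have hsm : MeasurableSet (Set.univ.pi (fun i : s => t i)) := MeasurableSet.univ_pi fun i => ht i
  have hm2 : Measurable (fun (p : (∀ i : s, X i) × (∀ i : s, Y i)) (i : s) => (p.1 i, p.2 i)) := by
    fun_prop
  rw [hset, ← Measure.map_apply (by fun_prop) (hm2 hsm), ← Measure.map_prod_map _ _
    (by fun_prop) (by fun_prop), Measure.infinitePi_map_restrict, Measure.infinitePi_map_restrict,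
    ← Measure.map_apply hm2 hsm, zip_pi, Measure.pi_pi]
  exact Finset.prod_coe_sort s (fun i => ((μ i).prod (ν i)) (t i))

theorem pf_ZIP : T_ZIP := by
  intro ι X Y _ _ μ ν _ _
  exact mp_zip μ ν

/-- Sitewise operations on two independent families. -/
theorem mp_sitewise {ι : Type*} {X Y W : ι → Type*} [∀ i, MeasurableSpace (X i)]
    [∀ i, MeasurableSpace (Y i)] [∀ i, MeasurableSpace (W i)]
    (μ : ∀ i, Measure (X i)) (ν : ∀ i, Measure (Y i))
    [∀ i, IsProbabilityMeasure (μ i)] [∀ i, IsProbabilityMeasure (ν i)]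
    (φ : ∀ i, X i × Y i → W i) (hφ : ∀ i, Measurable (φ i)) :
    MeasurePreserving (fun (p : (∀ i, X i) × (∀ i, Y i)) (i : ι) => φ i (p.1 i, p.2 i))
      ((Measure.infinitePi μ).prod (Measure.infinitePi ν))
      (Measure.infinitePi (fun i => ((μ i).prod (ν i)).map (φ i))) := by
  have h1 := mp_zip μ ν
  have h2 : MeasurePreserving (fun (x : ∀ i, X i × Y i) (i : ι) => φ i (x i))
      (Measure.infinitePi (fun i => (μ i).prod (ν i)))
      (Measure.infinitePi (fun i => ((μ i).prod (ν i)).map (φ i))) :=
    ⟨by fun_prop, Measure.infinitePi_map_pi _ hφ⟩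
  exact h2.comp h1

/-! ### The pair law -/

theorem pairLaw_fst (q s : ℝ) : (pairLaw q s).map Prod.fst = geo q := by
  unfold pairLaw
  rw [Measure.map_add _ _ measurable_fst, Measure.map_smul, Measure.map_smul,
    Measure.map_map measurable_fst measurable_from_nat, Measure.map_fst_prod]
  have : (Prod.fst ∘ fun k : ℕ => (k, k)) = id := rfl
  rw [this, Measure.map_id, measure_univ, one_smul, ← add_smul,
    ← ENNReal.ofReal_add (by linarith [cl_le_one s]) (cl_nonneg s)]
  simp

theorem pairLaw_snd (q s : ℝ) : (pairLaw q s).map Prod.snd = geo q := by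
  unfold pairLaw
  rw [Measure.map_add _ _ measurable_snd, Measure.map_smul, Measure.map_smul,
    Measure.map_map measurable_snd measurable_from_nat, Measure.map_snd_prod]
  have : (Prod.snd ∘ fun k : ℕ => (k, k)) = id := rfl
  rw [this, Measure.map_id, measure_univ, one_smul, ← add_smul,
    ← ENNReal.ofReal_add (by linarith [cl_le_one s]) (cl_nonneg s)]
  simp

theorem cl_of_mem {s : ℝ} (h0 : 0 ≤ s) (h1 : s ≤ 1) : cl s = s := by
  unfold cl
  rw [min_eq_left h1, max_eq_right h0]

theorem cl_cl (s : ℝ) : cl (cl s) = cl s := cl_of_mem (cl_nonneg s) (cl_le_one s)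

theorem pairLaw_cl (q s : ℝ) : pairLaw q (cl s) = pairLaw q s := by
  unfold pairLaw
  rw [cl_cl]

theorem pairLaw_one (q : ℝ) : pairLaw q 1 = (geo q).prod (geo q) := by
  unfold pairLaw
  rw [cl_of_mem zero_le_one le_rfl]
  simp

theorem pairLaw_zero (q : ℝ) : pairLaw q 0 = (geo q).map (fun k => (k, k)) := by
  unfold pairLaw
  rw [cl_of_mem le_rfl zero_le_one]
  simp

theorem pairLaw_swap (q s : ℝ) : (pairLaw q s).map Prod.swap = pairLaw q s := by
  unfold pairLaw
  rw [Measure.map_add _ _ measurable_swap, Measure.map_smul, Measure.map_smul,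
    Measure.map_map measurable_swap measurable_from_nat, Measure.prod_swap]
  rfl

theorem PN_cl (q : ℝ) (ρ : Site → ℝ) : PN q (fun x => cl (ρ x)) = PN q ρ := by
  unfold PN
  simp only [pairLaw_cl]

theorem measurable_eA : Measurable eA := by unfold eA; fun_prop
theorem measurable_eB : Measurable eB := by unfold eB; fun_prop

theorem mp_eA (q : ℝ) (ρ : Site → ℝ) : MeasurePreserving eA (PN q ρ) (PE q) := by
  refine ⟨measurable_eA, ?_⟩
  have h := Measure.infinitePi_map_pi (fun x => pairLaw q (ρ x)) (f := fun _ => Prod.fst)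
    (fun _ => measurable_fst)
  unfold PN PE
  have e : (fun (x : Site → ℕ × ℕ) (i : Site) => (x i).1) = eA := rfl
  rw [e] at h
  rw [h]
  simp only [pairLaw_fst]

theorem mp_eB (q : ℝ) (ρ : Site → ℝ) : MeasurePreserving eB (PN q ρ) (PE q) := by
  refine ⟨measurable_eB, ?_⟩
  have h := Measure.infinitePi_map_pi (fun x => pairLaw q (ρ x)) (f := fun _ => Prod.snd)
    (fun _ => measurable_snd)
  unfold PN PE
  have e : (fun (x : Site → ℕ × ℕ) (i : Site) => (x i).2) = eB := rfl
  rw [e] at h
  rw [h]
  simp only [pairLaw_snd]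

theorem pf_MAR : T_MAR := fun q ρ => ⟨mp_eA q ρ, mp_eB q ρ⟩

/-- Exchange of the two environments. -/
theorem mp_swapE (q : ℝ) (ρ : Site → ℝ) :
    MeasurePreserving (fun (E : PEnv) (x : Site) => (E x).swap) (PN q ρ) (PN q ρ) := by
  refine ⟨by fun_prop, ?_⟩
  have h := Measure.infinitePi_map_pi (fun x => pairLaw q (ρ x)) (f := fun _ => Prod.swap)
    (fun _ => measurable_swap)
  unfold PN
  rw [h]
  simp only [pairLaw_swap]

/-! ### Updating one site -/

theorem measurable_upd {β : Type*} [MeasurableSpace β] (x : Site) :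
    Measurable (fun p : (Site → β) × β => Function.update p.1 x p.2) := by
  refine measurable_pi_lambda _ fun y => ?_
  by_cases h : y = x
  · subst h
    have : (fun p : (Site → β) × β => Function.update p.1 y p.2 y) = fun p => p.2 := by
      funext p; simp
    rw [this]
    fun_prop
  · have : (fun p : (Site → β) × β => Function.update p.1 x p.2 y) = fun p => p.1 y := by
      funext p; simp [Function.update_of_ne h]
    rw [this]
    fun_prop

theorem mp_upd {β : Type*} [MeasurableSpace β] (μ : Site → Measure β)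
    [∀ x, IsProbabilityMeasure (μ x)] (x : Site) (ν : Measure β) [IsProbabilityMeasure ν]
    [∀ y, IsProbabilityMeasure (Function.update μ x ν y)] :
    MeasurePreserving (fun p : (Site → β) × β => Function.update p.1 x p.2)
      ((Measure.infinitePi μ).prod ν) (Measure.infinitePi (Function.update μ x ν)) := by
  refine ⟨measurable_upd x, ?_⟩
  refine Measure.eq_infinitePi _ fun s t ht => ?_
  rw [Measure.map_apply (measurable_upd x)
    (MeasurableSet.pi s.countable_toSet fun i _ => ht i)]
  have hset : (fun p : (Site → β) × β => Function.update p.1 x p.2) ⁻¹' ((s : Set Site).pi t) =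
      ((s.erase x : Finset Site) : Set Site).pi t ×ˢ (if x ∈ s then t x else Set.univ) := by
    ext p
    simp only [Set.mem_preimage, Set.mem_pi, Set.mem_prod, Finset.coe_erase,
      Finset.mem_coe, Set.mem_sdiff, Set.mem_singleton_iff]
    constructor
    · intro h
      refine ⟨fun y hy => ?_, ?_⟩
      · have := h y hy.1
        rwa [Function.update_of_ne hy.2] at this
      · split_ifs with hx
        · have := h x hx
          rwa [Function.update_self] at this
        · trivial
    · rintro ⟨h1, h2⟩ y hy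
      by_cases hyx : y = x
      · subst hyx
        rw [if_pos hy] at h2
        rwa [Function.update_self]
      · rw [Function.update_of_ne hyx]
        exact h1 y ⟨hy, hyx⟩
  rw [hset, Measure.prod_prod, Measure.infinitePi_pi _ (fun i _ => ht i)]
  have h3 : ∀ y ∈ s.erase x, μ y (t y) = Function.update μ x ν y (t y) := by
    intro y hy
    rw [Function.update_of_ne (Finset.ne_of_mem_erase hy)]
  rw [Finset.prod_congr rfl h3]
  split_ifs with hx
  · rw [← Finset.mul_prod_erase s _ hx, Function.update_self, mul_comm]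
  · rw [Finset.erase_eq_of_notMem hx, measure_univ, mul_one]

theorem update_pairLaw (q : ℝ) (ρ : Site → ℝ) (x : Site) (s : ℝ) :
    Function.update (fun y => pairLaw q (ρ y)) x (pairLaw q s) =
      fun y => pairLaw q (Function.update ρ x s y) := by
  funext y
  by_cases h : y = x
  · subst h; simp
  · simp [Function.update_of_ne h]

theorem mp_updPN (q : ℝ) (ρ : Site → ℝ) (x : Site) (s : ℝ) :
    MeasurePreserving (fun p : PEnv × (ℕ × ℕ) => Function.update p.1 x p.2)
      ((PN q ρ).prod (pairLaw q s)) (PN q (Function.update ρ x s)) := by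
  have h1 := update_pairLaw q ρ x s
  have : ∀ y, IsProbabilityMeasure
      (Function.update (fun y => pairLaw q (ρ y)) x (pairLaw q s) y) := by
    intro y
    rw [h1]
    infer_instance
  have h := mp_upd (fun y => pairLaw q (ρ y)) x (pairLaw q s)
  unfold PN
  have e : Measure.infinitePi (Function.update (fun y => pairLaw q (ρ y)) x (pairLaw q s)) =
      Measure.infinitePi (fun y => pairLaw q (Function.update ρ x s y)) := by
    congr 1
  rw [← e]
  exact h

theorem pf_UPD : T_UPD := fun q ρ x s => mp_updPN q ρ x s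

theorem mp_updPE (q : ℝ) (x : Site) :
    MeasurePreserving (fun p : Env × ℕ => Function.update p.1 x p.2)
      ((PE q).prod (geo q)) (PE q) := by
  have h1 : Function.update (fun _ : Site => geo q) x (geo q) = fun _ : Site => geo q := by
    simp
  have : ∀ y, IsProbabilityMeasure (Function.update (fun _ : Site => geo q) x (geo q) y) := by
    intro y
    rw [h1]
    infer_instance
  have h := mp_upd (fun _ : Site => geo q) x (geo q)
  unfold PE
  have e : Measure.infinitePi (Function.update (fun _ : Site => geo q) x (geo q)) =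
      Measure.infinitePi (fun _ : Site => geo q) := by
    congr 1
  rw [e] at h
  exact h

/-! ### Gluing -/

theorem glue_of_mem {β : Type*} {Q : Set Site} (E E' : Site → β) {x : Site} (h : x ∈ Q) :
    glue Q E E' x = E' x := by
  unfold glue; rw [if_pos h]

theorem glue_of_notMem {β : Type*} {Q : Set Site} (E E' : Site → β) {x : Site} (h : x ∉ Q) :
    glue Q E E' x = E x := by
  unfold glue; rw [if_neg h]

theorem measurable_glue {β : Type*} [MeasurableSpace β] (Q : Set Site) :
    Measurable (fun p : (Site → β) × (Site → β) => glue Q p.1 p.2) := by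
  refine measurable_pi_lambda _ fun x => ?_
  by_cases h : x ∈ Q
  · simp only [glue_of_mem _ _ h]
    fun_prop
  · simp only [glue_of_notMem _ _ h]
    fun_prop

open Classical in
/-- Gluing two profiles. -/
noncomputable def glueP (Q : Set Site) (ρ ρ' : Site → ℝ) : Site → ℝ :=
  fun x => if x ∈ Q then ρ' x else ρ x

/-- Gluing independent pairs of environments. -/
theorem mp_gluePN (q : ℝ) (Q : Set Site) (ρ ρ' : Site → ℝ) :
    MeasurePreserving (fun p : PEnv × PEnv => glue Q p.1 p.2) ((PN q ρ).prod (PN q ρ'))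
      (PN q (glueP Q ρ ρ')) := by
  classical
  have h := mp_sitewise (fun x => pairLaw q (ρ x)) (fun x => pairLaw q (ρ' x))
    (fun x => if x ∈ Q then (Prod.snd : (ℕ × ℕ) × (ℕ × ℕ) → ℕ × ℕ) else Prod.fst) (by
      intro x
      split_ifs
      · exact measurable_snd
      · exact measurable_fst)
  unfold PN
  have e1 : (fun (p : PEnv × PEnv) (x : Site) =>
      (if x ∈ Q then (Prod.snd : (ℕ × ℕ) × (ℕ × ℕ) → ℕ × ℕ) else Prod.fst) (p.1 x, p.2 x)) =
      fun p => glue Q p.1 p.2 := by
    funext p x
    by_cases hx : x ∈ Q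
    · rw [if_pos hx, glue_of_mem _ _ hx]
    · rw [if_neg hx, glue_of_notMem _ _ hx]
  have e2 : Measure.infinitePi (fun x => ((pairLaw q (ρ x)).prod (pairLaw q (ρ' x))).map
      (if x ∈ Q then (Prod.snd : (ℕ × ℕ) × (ℕ × ℕ) → ℕ × ℕ) else Prod.fst)) =
      Measure.infinitePi (fun x => pairLaw q (glueP Q ρ ρ' x)) := by
    congr 1
    funext x
    unfold glueP
    by_cases hx : x ∈ Q
    · rw [if_pos hx, if_pos hx, Measure.map_snd_prod, measure_univ, one_smul]
    · rw [if_neg hx, if_neg hx, Measure.map_fst_prod, measure_univ, one_smul]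
  rw [e1, e2] at h
  exact h

theorem glueP_self (Q : Set Site) (ρ : Site → ℝ) : glueP Q ρ ρ = ρ := by
  funext x
  unfold glueP
  split_ifs <;> rfl

theorem mp_glue_self (q : ℝ) (Q : Set Site) (ρ : Site → ℝ) :
    MeasurePreserving (fun p : PEnv × PEnv => glue Q p.1 p.2) ((PN q ρ).prod (PN q ρ))
      (PN q ρ) := by
  have h := mp_gluePN q Q ρ ρ
  rwa [glueP_self] at h

/-- Gluing of independent environments. -/
theorem mp_gluePE (q : ℝ) (Q : Set Site) :
    MeasurePreserving (fun p : Env × Env => glue Q p.1 p.2) ((PE q).prod (PE q)) (PE q) := by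
  classical
  have h := mp_sitewise (fun _ : Site => geo q) (fun _ : Site => geo q)
    (fun x => if x ∈ Q then (Prod.snd : ℕ × ℕ → ℕ) else Prod.fst) (by
      intro x
      split_ifs
      · exact measurable_snd
      · exact measurable_fst)
  unfold PE
  have e1 : (fun (p : Env × Env) (x : Site) =>
      (if x ∈ Q then (Prod.snd : ℕ × ℕ → ℕ) else Prod.fst) (p.1 x, p.2 x)) =
      fun p => glue Q p.1 p.2 := by
    funext p x
    by_cases hx : x ∈ Q
    · rw [if_pos hx, glue_of_mem _ _ hx]
    · rw [if_neg hx, glue_of_notMem _ _ hx]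
  have e2 : Measure.infinitePi (fun x : Site => ((geo q).prod (geo q)).map
      (if x ∈ Q then (Prod.snd : ℕ × ℕ → ℕ) else Prod.fst)) =
      Measure.infinitePi (fun _ : Site => geo q) := by
    congr 1
    funext x
    by_cases hx : x ∈ Q
    · rw [if_pos hx, Measure.map_snd_prod, measure_univ, one_smul]
    · rw [if_neg hx, Measure.map_fst_prod, measure_univ, one_smul]
  rw [e1, e2] at h
  exact h

/-- The pair `(A, B')`: first environment from `F.1`, second one glued. The law has
resampling probability `1` on `Q`. -/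
theorem mp_mixB (q : ℝ) (Q : Set Site) (ρ : Site → ℝ) :
    MeasurePreserving (fun (p : PEnv × PEnv) (x : Site) => ((p.1 x).1, (glue Q p.1 p.2 x).2))
      ((PN q ρ).prod (PN q ρ)) (PN q (one Q ρ)) := by
  classical
  have h := mp_sitewise (fun x => pairLaw q (ρ x)) (fun x => pairLaw q (ρ x))
    (fun x => if x ∈ Q then (fun e : (ℕ × ℕ) × (ℕ × ℕ) => (e.1.1, e.2.2)) else Prod.fst) (by
      intro x
      split_ifs
      · fun_prop
      · exact measurable_fst)
  unfold PN
  have e1 : (fun (p : PEnv × PEnv) (x : Site) =>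
      (if x ∈ Q then (fun e : (ℕ × ℕ) × (ℕ × ℕ) => (e.1.1, e.2.2)) else Prod.fst)
        (p.1 x, p.2 x)) = fun p x => ((p.1 x).1, (glue Q p.1 p.2 x).2) := by
    funext p x
    by_cases hx : x ∈ Q
    · rw [if_pos hx, glue_of_mem _ _ hx]
    · rw [if_neg hx, glue_of_notMem _ _ hx]
  have e2 : Measure.infinitePi (fun x => ((pairLaw q (ρ x)).prod (pairLaw q (ρ x))).map
      (if x ∈ Q then (fun e : (ℕ × ℕ) × (ℕ × ℕ) => (e.1.1, e.2.2)) else Prod.fst)) =
      Measure.infinitePi (fun x => pairLaw q (one Q ρ x)) := by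
    congr 1
    funext x
    unfold one
    by_cases hx : x ∈ Q
    · rw [if_pos hx, if_pos hx, pairLaw_one]
      have := Measure.map_prod_map (pairLaw q (ρ x)) (pairLaw q (ρ x)) (f := Prod.fst)
        (g := Prod.snd) measurable_fst measurable_snd
      rw [pairLaw_fst, pairLaw_snd] at this
      exact this.symm
    · rw [if_neg hx, if_neg hx, Measure.map_fst_prod, measure_univ, one_smul]
  rw [e1, e2] at h
  exact h

/-- The pair `(A', B)`. -/
theorem mp_mixA (q : ℝ) (Q : Set Site) (ρ : Site → ℝ) :
    MeasurePreserving (fun (p : PEnv × PEnv) (x : Site) => ((glue Q p.1 p.2 x).1, (p.1 x).2))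
      ((PN q ρ).prod (PN q ρ)) (PN q (one Q ρ)) := by
  classical
  have h := mp_sitewise (fun x => pairLaw q (ρ x)) (fun x => pairLaw q (ρ x))
    (fun x => if x ∈ Q then (fun e : (ℕ × ℕ) × (ℕ × ℕ) => (e.2.1, e.1.2)) else Prod.fst) (by
      intro x
      split_ifs
      · fun_prop
      · exact measurable_fst)
  unfold PN
  have e1 : (fun (p : PEnv × PEnv) (x : Site) =>
      (if x ∈ Q then (fun e : (ℕ × ℕ) × (ℕ × ℕ) => (e.2.1, e.1.2)) else Prod.fst)
        (p.1 x, p.2 x)) = fun p x => ((glue Q p.1 p.2 x).1, (p.1 x).2) := by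
    funext p x
    by_cases hx : x ∈ Q
    · rw [if_pos hx, glue_of_mem _ _ hx]
    · rw [if_neg hx, glue_of_notMem _ _ hx]
  have e2 : Measure.infinitePi (fun x => ((pairLaw q (ρ x)).prod (pairLaw q (ρ x))).map
      (if x ∈ Q then (fun e : (ℕ × ℕ) × (ℕ × ℕ) => (e.2.1, e.1.2)) else Prod.fst)) =
      Measure.infinitePi (fun x => pairLaw q (one Q ρ x)) := by
    congr 1
    funext x
    unfold one
    by_cases hx : x ∈ Q
    · rw [if_pos hx, if_pos hx, pairLaw_one]
      have h1 := Measure.map_prod_map (pairLaw q (ρ x)) (pairLaw q (ρ x)) (f := Prod.snd)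
        (g := Prod.fst) measurable_snd measurable_fst
      rw [pairLaw_fst, pairLaw_snd] at h1
      have h2 : (fun e : (ℕ × ℕ) × (ℕ × ℕ) => (e.2.1, e.1.2)) =
          Prod.swap ∘ (Prod.map Prod.snd Prod.fst) := rfl
      rw [h2, ← Measure.map_map measurable_swap (by fun_prop), ← h1, Measure.prod_swap]
    · rw [if_neg hx, if_neg hx, Measure.map_fst_prod, measure_univ, one_smul]
  rw [e1, e2] at h
  exact h

/-! ### Exchange of the copies inside a set -/

/-- Exchanging two independent copies inside `Q`. -/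
theorem mp_exch {β : Type*} [MeasurableSpace β] (μ : Site → Measure β)
    [∀ x, IsProbabilityMeasure (μ x)] (Q : Set Site) :
    MeasurePreserving (fun p : (Site → β) × (Site → β) => (glue Q p.1 p.2, glue Q p.2 p.1))
      ((Measure.infinitePi μ).prod (Measure.infinitePi μ))
      ((Measure.infinitePi μ).prod (Measure.infinitePi μ)) := by
  classical
  have hm : Measurable
      (fun p : (Site → β) × (Site → β) => (glue Q p.1 p.2, glue Q p.2 p.1)) :=
    (measurable_glue Q).prodMk ((measurable_glue Q).comp measurable_swap)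
  refine ⟨hm, ?_⟩
  -- the zipped law
  have hz := mp_zip μ μ
  have hmz : Measurable (fun (x : Site → β × β) => ((fun i => (x i).1), (fun i => (x i).2))) := by
    fun_prop
  have hs := mp_sitewise μ μ (W := fun _ => β × β)
    (fun x => if x ∈ Q then (Prod.swap : β × β → β × β) else id) (by
      intro x
      split_ifs
      · exact measurable_swap
      · exact measurable_id)
  have e2 : Measure.infinitePi (fun x => ((μ x).prod (μ x)).map
      (if x ∈ Q then (Prod.swap : β × β → β × β) else id)) =
      Measure.infinitePi (fun x => (μ x).prod (μ x)) := by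
    congr 1
    funext x
    by_cases hx : x ∈ Q
    · rw [if_pos hx, Measure.prod_swap]
    · rw [if_neg hx, Measure.map_id]
  rw [e2] at hs
  have h3 : ((Measure.infinitePi μ).prod (Measure.infinitePi μ)).map
      ((fun (x : Site → β × β) => ((fun i => (x i).1), (fun i => (x i).2))) ∘
        (fun (p : (Site → β) × (Site → β)) (i : Site) => (p.1 i, p.2 i))) =
      (Measure.infinitePi μ).prod (Measure.infinitePi μ) := by
    have : ((fun (x : Site → β × β) => ((fun i => (x i).1), (fun i => (x i).2))) ∘
        (fun (p : (Site → β) × (Site → β)) (i : Site) => (p.1 i, p.2 i))) = id := rfl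
    rw [this, Measure.map_id]
  rw [← Measure.map_map hmz hz.measurable, hz.map_eq] at h3
  have h4 : (fun p : (Site → β) × (Site → β) => (glue Q p.1 p.2, glue Q p.2 p.1)) =
      (fun (x : Site → β × β) => ((fun i => (x i).1), (fun i => (x i).2))) ∘
        (fun (p : (Site → β) × (Site → β)) (x : Site) =>
          (if x ∈ Q then (Prod.swap : β × β → β × β) else id) (p.1 x, p.2 x)) := by
    funext p
    simp only [Function.comp_apply]
    refine Prod.ext ?_ ?_
    · funext x
      by_cases hx : x ∈ Q
      · simp [hx, glue_of_mem]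
      · simp [hx, glue_of_notMem]
    · funext x
      by_cases hx : x ∈ Q
      · simp [hx, glue_of_mem]
      · simp [hx, glue_of_notMem]
  rw [h4, ← Measure.map_map hmz hs.measurable, hs.map_eq, h3]

theorem mp_exchPN (q : ℝ) (ρ : Site → ℝ) (Q : Set Site) :
    MeasurePreserving (fun p : PEnv × PEnv => (glue Q p.1 p.2, glue Q p.2 p.1))
      ((PN q ρ).prod (PN q ρ)) ((PN q ρ).prod (PN q ρ)) :=
  mp_exch (fun x => pairLaw q (ρ x)) Q

/-! ### Independence over disjoint sets -/

/-- `F` depends only on the sites in `A`. -/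
def DepA {β γ : Type*} (A : Set Site) (F : (Site → β) → γ) : Prop :=
  ∀ E E' : Site → β, (∀ x ∈ A, E x = E' x) → F E = F E'

theorem DepA.mono {β γ : Type*} {A B : Set Site} {F : (Site → β) → γ} (h : DepA A F)
    (hAB : A ⊆ B) : DepA B F := fun E E' h' => h E E' fun x hx => h' x (hAB hx)

/-- Independence for events of any product law. -/
theorem measure_inter_dep {β : Type*} [MeasurableSpace β] (μ : Site → Measure β)
    [∀ x, IsProbabilityMeasure (μ x)] {A B : Set Site} (hAB : Disjoint A B)
    {E F : Set (Site → β)} (hE : MeasurableSet E) (hF : MeasurableSet F)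
    (hEA : DepA A (fun ω => ω ∈ E)) (hFB : DepA B (fun ω => ω ∈ F)) :
    Measure.infinitePi μ (E ∩ F) = Measure.infinitePi μ E * Measure.infinitePi μ F := by
  have hex := mp_exch μ B
  -- the first entry of the exchange is `glue B p.1 p.2`
  have hfst : MeasurePreserving (fun p : (Site → β) × (Site → β) => glue B p.1 p.2)
      ((Measure.infinitePi μ).prod (Measure.infinitePi μ)) (Measure.infinitePi μ) :=
    (measurePreserving_fst (μ := Measure.infinitePi μ) (ν := Measure.infinitePi μ)).comp hex
  have h1 := hfst.measure_preimage (hE.inter hF).nullMeasurableSet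
  have h2 : (fun p : (Site → β) × (Site → β) => glue B p.1 p.2) ⁻¹' (E ∩ F) = E ×ˢ F := by
    ext p
    simp only [Set.mem_preimage, Set.mem_inter_iff, Set.mem_prod]
    have e1 : (glue B p.1 p.2 ∈ E) = (p.1 ∈ E) :=
      hEA _ _ fun x hx => glue_of_notMem _ _ (Set.disjoint_left.1 hAB hx)
    have e2 : (glue B p.1 p.2 ∈ F) = (p.2 ∈ F) :=
      hFB _ _ fun x hx => glue_of_mem _ _ hx
    rw [e1, e2]
  rw [← h1, h2, Measure.prod_prod]

/-- Independence of functions of disjoint sets of sites, for any product law. -/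
theorem indepFun_dep {β γ δ : Type*} [MeasurableSpace β] [MeasurableSpace γ]
    [MeasurableSpace δ] (μ : Site → Measure β) [∀ x, IsProbabilityMeasure (μ x)]
    {A B : Set Site} (hAB : Disjoint A B) {F : (Site → β) → γ} {G : (Site → β) → δ}
    (hF : Measurable F) (hG : Measurable G) (hFA : DepA A F) (hGB : DepA B G) :
    IndepFun F G (Measure.infinitePi μ) := by
  rw [indepFun_iff_measure_inter_preimage_eq_mul]
  intro S S' hS hS'
  refine measure_inter_dep μ hAB (hF hS) (hG hS') ?_ ?_
  · intro ω ω' h
    simp only [Set.mem_preimage]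
    rw [hFA ω ω' h]
  · intro ω ω' h
    simp only [Set.mem_preimage]
    rw [hGB ω ω' h]

theorem indepFun_PN {γ δ : Type*} [MeasurableSpace γ] [MeasurableSpace δ] (q : ℝ)
    (ρ : Site → ℝ) {A B : Set Site} (hAB : Disjoint A B) {F : PEnv → γ} {G : PEnv → δ}
    (hF : Measurable F) (hG : Measurable G) (hFA : DepA A F) (hGB : DepA B G) :
    IndepFun F G (PN q ρ) :=
  indepFun_dep (fun x => pairLaw q (ρ x)) hAB hF hG hFA hGB

end Pool.Agent.H97.NF
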