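import Pool.Agent.H99.NS.Defs

/-!
# Part F (noise sensitivity of geometric last passage percolation): definitions

* the literal setting of the problem (paths in the square lattice, both end points included,
  resampling with probability `1 - exp (-t)`), `NoiseSensitive` being the statement;
* the rotated setting with an arbitrary profile of resampling probabilities.
-/

open MeasureTheory ProbabilityTheory Filter Topology
open scoped ENNReal

namespace Pool.Agent.H97.NF

open Pool.Agent.H99.NS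

/-! ### The literal setting -/

/-- `x 0, x 1, ..., x m` is a directed path from `u` to `v` in the square lattice. -/
def IsDirPath (u v : ℤ × ℤ) (m : ℕ) (x : ℕ → ℤ × ℤ) : Prop :=
  x 0 = u ∧ x m = v ∧ ∀ i, i < m → x (i + 1) - x i = (1, 0) ∨ x (i + 1) - x i = (0, 1)

/-- The last passage time from `u` to `v`: the maximum over the directed paths from `u` to `v`
of the sum of the weights of the sites of the path (both end points included). -/
noncomputable def lpt (ω : ℤ × ℤ → ℕ) (u v : ℤ × ℤ) : ℝ :=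
  sSup {s | ∃ (m : ℕ) (x : ℕ → ℤ × ℤ), IsDirPath u v m x ∧
    s = ∑ i ∈ Finset.range (m + 1), (ω (x i) : ℝ)}

/-- `T_n`, the last passage time from `(0, 0)` to `(n, n)`. -/
noncomputable def Tn (n : ℕ) (ω : ℤ × ℤ → ℕ) : ℝ := lpt ω (0, 0) (n, n)

/-- The law of the indicator of resampling: `true` with probability `1 - exp (-t)`
(for `t ≥ 0`; `false` almost surely if `t < 0`). -/
noncomputable def bern (t : ℝ) : Measure Bool :=
  if 0 ≤ t then
    ENNReal.ofReal (1 - Real.exp (-t)) • Measure.dirac true +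
      ENNReal.ofReal (Real.exp (-t)) • Measure.dirac false
  else Measure.dirac false

instance instBern (t : ℝ) : IsProbabilityMeasure (bern t) := by
  unfold bern
  split_ifs with h
  · constructor
    have h1 : Real.exp (-t) ≤ 1 := by rw [Real.exp_le_one_iff]; linarith
    simp only [Measure.coe_add, Measure.coe_smul, Pi.add_apply, Pi.smul_apply, measure_univ,
      smul_eq_mul, mul_one]
    rw [← ENNReal.ofReal_add (by linarith) (Real.exp_pos _).le]
    simp
  · infer_instance

/-- The law of the triples `(ω x, ω' x, B x)`: i.i.d. over the sites `x`, the three entries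
being independent, `ω x` and `ω' x` geometric with parameter `p` (the measure `geo (1 - p)` has
the weights `p (1 - p) ^ k`) and `B x` with law `bern t`. -/
noncomputable def noiseLaw (p t : ℝ) : Measure (ℤ × ℤ → ℕ × ℕ × Bool) :=
  Measure.infinitePi (fun _ => (geo (1 - p)).prod ((geo (1 - p)).prod (bern t)))

instance instNoiseLaw (p t : ℝ) : IsProbabilityMeasure (noiseLaw p t) := by
  unfold noiseLaw; infer_instance

/-- The original environment. -/
def om (F : ℤ × ℤ → ℕ × ℕ × Bool) : ℤ × ℤ → ℕ := fun x => (F x).1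

/-- The environment after the resampling of the sites `x` with `B x = true`. -/
def omNoisy (F : ℤ × ℤ → ℕ × ℕ × Bool) : ℤ × ℤ → ℕ :=
  fun x => if (F x).2.2 = true then (F x).2.1 else (F x).1

/-- The Pearson correlation. -/
noncomputable def corr {Ω : Type*} [MeasurableSpace Ω] (X Y : Ω → ℝ) (μ : Measure Ω) : ℝ :=
  cov[X, Y; μ] / (√(Var[X; μ]) * √(Var[Y; μ]))

/-- The correlation of `T_n` in the two environments. -/
noncomputable def corrT (p t : ℝ) (n : ℕ) : ℝ :=
  corr (fun F => Tn n (om F)) (fun F => Tn n (omNoisy F)) (noiseLaw p t)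

/-- The statement of the problem for the parameter `p`. -/
def NoiseSensitive (p : ℝ) : Prop :=
  ∀ t : ℕ → ℝ, (∀ n, 0 < t n) →
    Tendsto (fun n : ℕ => (n : ℝ) ^ ((1 : ℝ) / 3) * t n) atTop atTop →
    Tendsto (fun n : ℕ => corrT p (t n) n) atTop (𝓝 0)

/-! ### The rotated setting -/

/-- A pair of environments, as a family of pairs. -/
abbrev PEnv := Site → ℕ × ℕ

/-- The first environment. -/
def eA (E : PEnv) : Env := fun x => (E x).1

/-- The second environment. -/
def eB (E : PEnv) : Env := fun x => (E x).2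

/-- `r` cut to `[0, 1]`. -/
noncomputable def cl (r : ℝ) : ℝ := max 0 (min r 1)

/-- Law of one pair of weights: equal weights with probability `1 - r`, independent weights
with probability `r` (`r` is cut to `[0, 1]`). -/
noncomputable def pairLaw (q r : ℝ) : Measure (ℕ × ℕ) :=
  ENNReal.ofReal (1 - cl r) • (geo q).map (fun k => (k, k)) +
    ENNReal.ofReal (cl r) • (geo q).prod (geo q)

theorem cl_nonneg (r : ℝ) : 0 ≤ cl r := le_max_left _ _

theorem cl_le_one (r : ℝ) : cl r ≤ 1 := by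
  unfold cl
  exact max_le zero_le_one (min_le_right _ _)

instance instPairLaw (q r : ℝ) : IsProbabilityMeasure (pairLaw q r) := by
  unfold pairLaw
  constructor
  have h1 : ((geo q).map (fun k => (k, k))) Set.univ = 1 := by
    rw [Measure.map_apply (measurable_from_nat) MeasurableSet.univ]
    simp
  simp only [Measure.coe_add, Measure.coe_smul, Pi.add_apply, Pi.smul_apply, h1, measure_univ,
    smul_eq_mul, mul_one]
  rw [← ENNReal.ofReal_add (by linarith [cl_le_one r]) (cl_nonneg r)]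
  simp

/-- Law of the pair of environments with the profile `ρ` of resampling probabilities. -/
noncomputable def PN (q : ℝ) (ρ : Site → ℝ) : Measure PEnv :=
  Measure.infinitePi (fun x => pairLaw q (ρ x))

instance instPN (q : ℝ) (ρ : Site → ℝ) : IsProbabilityMeasure (PN q ρ) := by
  unfold PN; infer_instance

open Classical in
/-- The pair of environments with the sites of `Q` replaced by those of `E'`. -/
noncomputable def glue {β : Type*} (Q : Set Site) (E E' : Site → β) : Site → β :=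
  fun x => if x ∈ Q then E' x else E x

/-- The passage time from `(0,0)` (excluded) to `(2n, 0)` (included). -/
noncomputable def ff (n : ℕ) (ω : Env) : ℝ := T ω (0, 0) (2 * n, 0)

/-- The integral over the weight of the site `x`. -/
noncomputable def Ex (q : ℝ) (x : Site) (h : Env → ℝ) (ω : Env) : ℝ :=
  ∫ k, h (Function.update ω x k) ∂(geo q)

/-- `h` minus its average over the weight of the site `x`. -/
noncomputable def Dx (q : ℝ) (x : Site) (h : Env → ℝ) (ω : Env) : ℝ := h ω - Ex q x h ω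

/-- The influence `E [D_x f (A) D_x f (B)]` of the site `x`. -/
noncomputable def Infx (q : ℝ) (n : ℕ) (ρ : Site → ℝ) (x : Site) : ℝ :=
  ∫ E, Dx q x (ff n) (eA E) * Dx q x (ff n) (eB E) ∂(PN q ρ)

/-- The covariance `Cov (f (A), f (B))`. -/
noncomputable def VV (q : ℝ) (n : ℕ) (ρ : Site → ℝ) : ℝ :=
  cov[fun E => ff n (eA E), fun E => ff n (eB E); PN q ρ]

/-- The sites whose weights are used by `ff n`. -/
noncomputable def domN (n : ℕ) : Finset Site :=
  ((Finset.Icc (1 : ℤ) (2 * n)) ×ˢ (Finset.Icc (-(2 * n : ℤ)) (2 * n))).filter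
    (fun x => |x.2| ≤ x.1 ∧ |x.2| ≤ 2 * n - x.1 ∧ (x.1 + x.2) % 2 = 0)

/-- The total influence. -/
noncomputable def Inft (q : ℝ) (n : ℕ) (ρ : Site → ℝ) : ℝ := ∑ x ∈ domN n, Infx q n ρ x

/-- The tile of scale `a` with index `z = (i, j)`: centre `(64^a i, 16^a j)`, duration `64^a`,
width `16^a`. -/
def tile (a : ℕ) (z : ℤ × ℤ) : Set Site :=
  {x | (2 * z.1 - 1) * 64 ^ a < 2 * x.1 ∧ 2 * x.1 ≤ (2 * z.1 + 1) * 64 ^ a ∧
    (2 * z.2 - 1) * 16 ^ a ≤ 2 * x.2 ∧ 2 * x.2 < (2 * z.2 + 1) * 16 ^ a}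

/-- The box of scale `k` around the tile `z` of scale `a` (with box constant `A'`). -/
noncomputable def kbox (A' : ℝ) (a : ℕ) (z : ℤ × ℤ) (k : ℕ) : Set Site :=
  {x | 2 * |x.1 - 64 ^ a * z.1| ≤ 64 ^ k ∧
    ((|x.2 - 16 ^ a * z.2| : ℤ) : ℝ) ≤ A' * 16 ^ k}

/-- Resampling probability of scale `k`. -/
noncomputable def rk (κ : ℝ) (k : ℕ) : ℝ := κ * (1 / 4) ^ k

/-- `E |f(A) - f(A')| |f(B) - f(B')|` for the pair of environments with profile `ρ`, and the
pair obtained by taking an independent copy inside `Q`. -/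
noncomputable def quad (q : ℝ) (n : ℕ) (ρ : Site → ℝ) (Q : Set Site) : ℝ :=
  ∫ F : PEnv × PEnv, |ff n (eA F.1) - ff n (eA (glue Q F.1 F.2))| *
    |ff n (eB F.1) - ff n (eB (glue Q F.1 F.2))| ∂((PN q ρ).prod (PN q ρ))

open Classical in
/-- INPUT of Part F from Parts C and D. -/
def KK (q : ℝ) : Prop :=
  ∃ C M κ c0 A' : ℝ, ∃ n0 : ℕ, 0 ≤ C ∧ 20 ≤ M ∧ 0 < κ ∧ κ ≤ 1 ∧ 0 < c0 ∧ c0 < 1 ∧ 1 ≤ A' ∧
    ∀ n : ℕ, n0 ≤ n → ∀ r : ℝ, 0 < r → r ≤ 1 → ∀ a : ℕ, 1 ≤ a →
      ((2 * n : ℕ) : ℝ) ^ c0 ≤ 64 ^ a → 64 ^ a ≤ 2 * n → rk κ a ≤ r →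
      ∃ fail : ℤ × ℤ → ℝ, (∀ z, 0 ≤ fail z) ∧
        (∀ Z : Finset (ℤ × ℤ), ∑ z ∈ Z, fail z ≤ C * 16 ^ a) ∧
        ∀ ρ : Site → ℝ, (∀ x, r ≤ ρ x ∧ ρ x ≤ 1) → ∀ z : ℤ × ℤ,
          (∃ x ∈ domN n, x ∈ tile a z) →
          quad q n ρ (tile a z) ≤
            C * ∑ k ∈ (Finset.Icc a n).filter (fun k => 64 ^ k ≤ 2 * n),
              Real.exp (-(M * ((k : ℝ) - a))) * (1 / 4) ^ k *
                ∑ x ∈ (domN n).filter (fun x => x ∈ kbox A' a z k),
                  Infx q n (fun _ => rk κ k) x + fail z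

/-- INPUT of Part F: the lower bound of the variance. -/
def DVar (q : ℝ) : Prop :=
  ∃ c : ℝ, ∃ n0 : ℕ, 0 < c ∧ ∀ n : ℕ, n0 ≤ n → c * (n : ℝ) ^ ((2 : ℝ) / 3) ≤ Var[ff n; PE q]

end Pool.Agent.H97.NF
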