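import Pool.Agent.H97.NF.Defs

/-!
# Part F: targets

Every target `T_X` is a proposition; the module `X` proves `theorem pf_X : T_X`.
-/

open MeasureTheory ProbabilityTheory Filter Topology
open scoped ENNReal

namespace Pool.Agent.H97.NF

open Pool.Agent.H99.NS

/-! ## Functions of finitely many sites with linear growth -/

/-- `h` depends only on the sites of `S` and grows at most linearly. -/
structure Nice (S : Finset Site) (h : Env → ℝ) : Prop where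
  dep : ∀ ω ω' : Env, (∀ x ∈ S, ω x = ω' x) → h ω = h ω'
  bd : ∃ C : ℝ, 0 ≤ C ∧ ∀ ω : Env, |h ω| ≤ C * (1 + ∑ x ∈ S, (ω x : ℝ))

/-- The correlation functional `E [g(A) h(B)]`. -/
noncomputable def FF (q : ℝ) (g h : Env → ℝ) (ρ : Site → ℝ) : ℝ :=
  ∫ E, g (eA E) * h (eB E) ∂(PN q ρ)

/-- The moments of the geometric law. -/
def T_GMO : Prop := ∀ q : ℝ, 0 ≤ q → q < 1 → ∀ m : ℕ, Integrable (fun k : ℕ => (k : ℝ) ^ m) (geo q)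

/-- Niceness: measurability, operations, the passage time. -/
def T_NIC : Prop :=
  (∀ S h, Nice S h → Measurable h) ∧
  (∀ S S' h, S ⊆ S' → Nice S h → Nice S' h) ∧
  (∀ S g h (c : ℝ), Nice S g → Nice S h → Nice S (fun ω => g ω + c * h ω)) ∧
  (∀ S h (x : Site) (k : ℕ), Nice S h → Nice (S.erase x) (fun ω => h (Function.update ω x k))) ∧
  (∀ q : ℝ, 0 ≤ q → q < 1 → ∀ S h (x : Site), Nice S h → Nice (S.erase x) (Ex q x h)) ∧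
  (∀ q : ℝ, 0 ≤ q → q < 1 → ∀ S h (x : Site), Nice S h → Nice S (Dx q x h)) ∧
  (∀ n, Nice (domN n) (ff n))

/-! ## The law `PN` -/

/-- Marginals. -/
def T_MAR : Prop := ∀ (q : ℝ) (ρ : Site → ℝ),
  MeasurePreserving eA (PN q ρ) (PE q) ∧ MeasurePreserving eB (PN q ρ) (PE q)

/-- Replacement of one pair. -/
def T_UPD : Prop := ∀ (q : ℝ) (ρ : Site → ℝ) (x : Site) (s : ℝ),
  MeasurePreserving (fun p : PEnv × (ℕ × ℕ) => Function.update p.1 x p.2)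
    ((PN q ρ).prod (pairLaw q s)) (PN q (Function.update ρ x s))

/-- Zipping of product measures. -/
def T_ZIP : Prop := ∀ {ι : Type} {X Y : ι → Type} [∀ i, MeasurableSpace (X i)]
  [∀ i, MeasurableSpace (Y i)] (μ : ∀ i, Measure (X i)) (ν : ∀ i, Measure (Y i))
  [∀ i, IsProbabilityMeasure (μ i)] [∀ i, IsProbabilityMeasure (ν i)],
  MeasurePreserving (fun (p : (∀ i, X i) × (∀ i, Y i)) (i : ι) => (p.1 i, p.2 i))
    ((Measure.infinitePi μ).prod (Measure.infinitePi ν))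
    (Measure.infinitePi (fun i => (μ i).prod (ν i)))

/-- The integral with respect to the pair law. -/
def T_PLI : Prop := ∀ q s : ℝ, 0 ≤ s → s ≤ 1 → ∀ g : ℕ × ℕ → ℝ,
  Integrable (fun k => g (k, k)) (geo q) → Integrable g ((geo q).prod (geo q)) →
  Integrable g (pairLaw q s) ∧
  ∫ e, g e ∂(pairLaw q s) =
    (1 - s) * ∫ k, g (k, k) ∂(geo q) + s * ∫ e, g e ∂((geo q).prod (geo q))

/-- Integrability. -/
def T_INT : Prop := ∀ q : ℝ, 0 ≤ q → q < 1 → ∀ S g h, Nice S g → Nice S h →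
  (∀ ρ : Site → ℝ, Integrable (fun E => g (eA E) * h (eB E)) (PN q ρ) ∧
    Integrable (fun E => g (eA E) * h (eA E)) (PN q ρ) ∧
    Integrable (fun E => g (eB E) * h (eB E)) (PN q ρ)) ∧
  Integrable (fun ω => g ω * h ω) (PE q) ∧ Integrable g (PE q)

/-! ## F1: one-site calculus, positivity, monotonicity -/

/-- One-site expansion. -/
def T_FE1 : Prop := ∀ q : ℝ, 0 ≤ q → q < 1 → ∀ S g h, Nice S g → Nice S h →
  ∀ (ρ : Site → ℝ) (x : Site) (s : ℝ), 0 ≤ s → s ≤ 1 →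
  FF q g h (Function.update ρ x s) =
    (1 - s) * ∫ k, FF q (fun ω => g (Function.update ω x k)) (fun ω => h (Function.update ω x k)) ρ
      ∂(geo q) + s * FF q (Ex q x g) (Ex q x h) ρ

/-- Dependence on one entry of the profile. -/
def T_FE2 : Prop := ∀ q : ℝ, 0 ≤ q → q < 1 → ∀ S g h, Nice S g → Nice S h →
  ∀ (ρ : Site → ℝ) (x : Site) (s : ℝ), 0 ≤ s → s ≤ 1 →
  FF q g h (Function.update ρ x s) = FF q g h (Function.update ρ x 1) +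
    (1 - s) * FF q (Dx q x g) (Dx q x h) (Function.update ρ x 0) ∧
  FF q (Dx q x g) (Dx q x h) (Function.update ρ x s) =
    (1 - s) * FF q (Dx q x g) (Dx q x h) (Function.update ρ x 0)

/-- Only the profile on the sites used matters. -/
def T_LOC : Prop := ∀ q : ℝ, ∀ S g h, Nice S g → Nice S h →
  ∀ ρ ρ' : Site → ℝ, (∀ x ∈ S, ρ x = ρ' x) → FF q g h ρ = FF q g h ρ'

/-- Positivity. -/
def T_POS : Prop := ∀ q : ℝ, 0 ≤ q → q < 1 → ∀ S h, Nice S h → ∀ ρ : Site → ℝ, 0 ≤ FF q h h ρ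

/-- Monotonicity. -/
def T_MON : Prop := ∀ q : ℝ, 0 ≤ q → q < 1 → ∀ S h, Nice S h → ∀ ρ ρ' : Site → ℝ,
  (∀ x ∈ S, 0 ≤ ρ x ∧ ρ x ≤ ρ' x ∧ ρ' x ≤ 1) → FF q h h ρ' ≤ FF q h h ρ

/-- Facts on the covariance `VV` and the influences. -/
def T_VVF : Prop := ∀ q : ℝ, 0 ≤ q → q < 1 → ∀ n : ℕ,
  (∀ ρ : Site → ℝ, VV q n ρ = FF q (ff n) (ff n) ρ - (∫ ω, ff n ω ∂(PE q)) ^ 2) ∧
  (∀ ρ : Site → ℝ, 0 ≤ VV q n ρ) ∧
  (∀ ρ ρ' : Site → ℝ, (∀ x ∈ domN n, ρ x = ρ' x) → VV q n ρ = VV q n ρ') ∧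
  (∀ ρ : Site → ℝ, (∀ x ∈ domN n, ρ x = 0) → VV q n ρ = Var[ff n; PE q]) ∧
  (∀ ρ : Site → ℝ, (∀ x ∈ domN n, ρ x = 1) → VV q n ρ = 0) ∧
  (∀ ρ ρ' : Site → ℝ, (∀ x ∈ domN n, 0 ≤ ρ x ∧ ρ x ≤ ρ' x ∧ ρ' x ≤ 1) →
    VV q n ρ' ≤ VV q n ρ) ∧
  (∀ (ρ : Site → ℝ) (x : Site), 0 ≤ Infx q n ρ x)

/-- The discrete differential inequality. -/
def T_VDI : Prop := ∀ q : ℝ, 0 ≤ q → q < 1 → ∀ n : ℕ, ∀ r r' : ℝ, 0 ≤ r → r ≤ r' → r' ≤ 1 →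
  (r' - r) * Inft q n (fun _ => r') ≤ VV q n (fun _ => r) - VV q n (fun _ => r')

/-- The dyadic sum of the influences. -/
def T_DYS : Prop := ∀ q : ℝ, 0 ≤ q → q < 1 → ∀ n : ℕ, ∀ κ : ℝ, 0 < κ → κ ≤ 1 → ∀ a b : ℕ,
  ∑ k ∈ Finset.Icc a b, rk κ k * Inft q n (fun _ => rk κ k) ≤ 4 / 3 * Var[ff n; PE q]

/-! ## F2: the overlap bound -/

/-- The site `x` lies on some geodesic of `ff n`. -/
def OnGeo (n : ℕ) (ω : Env) (x : Site) : Prop :=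
  T ω (0, 0) x + T ω x (2 * n, 0) = T ω (0, 0) (2 * n, 0)

/-- Influence versus overlap. -/
def T_OVL : Prop := ∀ q : ℝ, 0 < q → q < 1 → ∀ n : ℕ, ∀ x ∈ domN n, ∀ ρ : Site → ℝ,
  (0 ≤ ρ x ∧ ρ x ≤ 1) →
  q * (1 - q) * (1 - ρ x) * (PN q ρ).real {E | OnGeo n (eA E) x ∧ OnGeo n (eB E) x} ≤
    Infx q n ρ x

/-! ## F3: tiles -/

open Classical in
/-- Replacing the profile by `1` on a set. -/
noncomputable def one (Q : Set Site) (ρ : Site → ℝ) : Site → ℝ := fun x => if x ∈ Q then 1 else ρ x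

/-- Exact one-step formula. -/
def T_QST : Prop := ∀ q : ℝ, 0 ≤ q → q < 1 → ∀ n : ℕ, ∀ (ρ : Site → ℝ) (Q : Set Site),
  VV q n ρ - VV q n (one Q ρ) =
    1 / 2 * ∫ F : PEnv × PEnv, (ff n (eA F.1) - ff n (eA (glue Q F.1 F.2))) *
      (ff n (eB F.1) - ff n (eB (glue Q F.1 F.2))) ∂((PN q ρ).prod (PN q ρ)) ∧
  VV q n ρ - VV q n (one Q ρ) ≤ 1 / 2 * quad q n ρ Q

/-- Sum over a family of sets covering the domain. -/
def T_TIL : Prop := ∀ q : ℝ, 0 ≤ q → q < 1 → ∀ n : ℕ, ∀ r : ℝ, 0 < r → r ≤ 1 →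
  ∀ (Z : Finset (ℤ × ℤ)) (Q : ℤ × ℤ → Set Site) (b : ℤ × ℤ → ℝ),
  (∀ x ∈ domN n, ∃ z ∈ Z, x ∈ Q z) →
  (∀ z ∈ Z, ∀ ρ : Site → ℝ, (∀ x, r ≤ ρ x ∧ ρ x ≤ 1) → quad q n ρ (Q z) ≤ b z) →
  VV q n (fun _ => r) ≤ 1 / 2 * ∑ z ∈ Z, b z

/-- The tiles: covering, and the number of boxes containing a site. -/
def T_CNT : Prop := 
  (∀ a : ℕ, 1 ≤ a → ∀ x : Site, ∃ z : ℤ × ℤ, x ∈ tile a z) ∧
  (∀ A' : ℝ, 1 ≤ A' → ∀ a k : ℕ, a ≤ k → ∀ (x : Site) (Z : Finset (ℤ × ℤ)),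
    (∀ z ∈ Z, x ∈ kbox A' a z k) → (Z.card : ℝ) ≤ 6 * A' * 1024 ^ (k - a))

/-! ## F5, F6: the quantitative bound -/

/-- One scale. -/
def T_ONE : Prop := ∀ q : ℝ, 0 < q → q < 1 → KK q →
  ∃ C κ c0 : ℝ, ∃ n0 : ℕ, 0 < C ∧ 0 < κ ∧ κ ≤ 1 ∧ 0 < c0 ∧ c0 < 1 ∧
    ∀ n : ℕ, n0 ≤ n → ∀ r : ℝ, 0 < r → r ≤ 1 → ∀ a : ℕ, 1 ≤ a →
      ((2 * n : ℕ) : ℝ) ^ c0 ≤ 64 ^ a → 64 ^ a ≤ 2 * n → rk κ a ≤ r →
      VV q n (fun _ => r) ≤ C * ∑ k ∈ Finset.Icc a n,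
        (1 / 2) ^ (k - a) * (rk κ k * Inft q n (fun _ => rk κ k)) + C * 16 ^ a

/-- All scales. -/
def T_ALL : Prop := ∀ q : ℝ, 0 < q → q < 1 → KK q → DVar q →
  ∃ C : ℝ, 0 < C ∧ ∀ n : ℕ, 1 ≤ n → ∀ r : ℝ, 0 < r → r ≤ 1 →
    VV q n (fun _ => r) * (1 + max 0 (Real.log ((n : ℝ) ^ ((1 : ℝ) / 3) * r))) ≤
      C * Var[ff n; PE q]

/-! ## F7: translation -/

/-- The environment in rotated coordinates. -/
def rot (ω : ℤ × ℤ → ℕ) : Env := fun x => ω ((x.1 + x.2) / 2, (x.1 - x.2) / 2)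

/-- The passage times. -/
def T_LPT : Prop := ∀ (ω : ℤ × ℤ → ℕ) (n : ℕ), Tn n ω = ω (0, 0) + ff n (rot ω)

/-- The correlation. -/
def T_COR : Prop := ∀ p : ℝ, 0 < p → p < 1 → ∀ t : ℝ, 0 ≤ t → ∀ n : ℕ,
  corrT p t n = (Real.exp (-t) * Var[fun k : ℕ => (k : ℝ); geo (1 - p)] +
      VV (1 - p) n (fun _ => 1 - Real.exp (-t))) /
    (Var[fun k : ℕ => (k : ℝ); geo (1 - p)] + Var[ff n; PE (1 - p)])

/-- Part F. -/
def T_PARTF : Prop := ∀ p : ℝ, 0 < p → p < 1 → KK (1 - p) → DVar (1 - p) →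
  NoiseSensitive p ∧
  ∃ C : ℝ, ∀ n : ℕ, 2 ≤ n → ∀ t : ℝ, 0 < t →
    0 ≤ corrT p t n ∧
    corrT p t n ≤ C / (1 + max 0 (Real.log ((n : ℝ) ^ ((1 : ℝ) / 3) * min t 1)))

end Pool.Agent.H97.NF
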