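import Pool.Agent.H97.NF.Pair
import Pool.Agent.H84.GL.Targets2

/-!
# The variance bound of Part A in the form used by Part F
-/

open MeasureTheory ProbabilityTheory Filter Topology
open scoped ENNReal

namespace Pool.Agent.H97.NF

open Pool.Agent.H99.NS

theorem dvar_of (h : Pool.Agent.H84.GL.D_VAR) : ∀ q : ℝ, 0 < q → q < 1 → DVar q := by
  intro q hq0 hq1
  obtain ⟨c, C, hc, _, n0, hn⟩ := h q hq0 hq1
  refine ⟨c, n0, hc, fun n hn0 => ?_⟩
  have h1 := (hn n hn0).1
  have e : (fun ω => T ω (0, 0) (((2 * n : ℕ) : ℤ), 0)) = ff n := by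
    funext ω
    unfold ff
    push_cast
    rfl
  rw [e] at h1
  refine le_trans ?_ h1
  refine mul_le_mul_of_nonneg_left ?_ hc.le
  refine Real.rpow_le_rpow (by positivity) ?_ (by norm_num)
  push_cast
  have : (0 : ℝ) ≤ n := Nat.cast_nonneg n
  linarith

end Pool.Agent.H97.NF
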