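import Pool.Agent.H97.NF.Pair
import Pool.Agent.H22.LPP.Prob

/-!
# The correlation in the literal setting
-/

open MeasureTheory ProbabilityTheory Filter Topology
open scoped ENNReal

namespace Pool.Agent.H97.NF

open Pool.Agent.H99.NS

/-- The map from triples to pairs at one site. -/
def phi0 (e : ℕ × ℕ × Bool) : ℕ × ℕ := (e.1, if e.2.2 = true then e.2.1 else e.1)

theorem measurable_phi0 : Measurable phi0 := measurable_from_prod_countable_right
    (fun _ => measurable_of_countable _)

theorem site_law (q t : ℝ) (ht : 0 ≤ t) :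
    ((geo q).prod ((geo q).prod (bern t))).map phi0 = pairLaw q (1 - Real.exp (-t)) := by
  have he : Real.exp (-t) ≤ 1 := by rw [Real.exp_le_one_iff]; linarith
  have hpos := Real.exp_pos (-t)
  unfold bern pairLaw
  rw [if_pos ht, cl_of_mem (by linarith) (by linarith)]
  have e1 : ((geo q).prod ((geo q).prod (Measure.dirac true))).map phi0 = (geo q).prod (geo q) := by
    rw [Measure.prod_dirac]
    have h := Measure.map_prod_map (geo q) (geo q) (f := id) (g := fun x : ℕ => (x, true))
      measurable_id (by fun_prop)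
    rw [Measure.map_id] at h
    rw [h, Measure.map_map measurable_phi0 (by fun_prop)]
    have : phi0 ∘ Prod.map id (fun x : ℕ => (x, true)) = id := by
      funext e
      simp [phi0]
    rw [this, Measure.map_id]
  have e2 : ((geo q).prod ((geo q).prod (Measure.dirac false))).map phi0 =
      (geo q).map (fun k => (k, k)) := by
    rw [Measure.prod_dirac]
    have h := Measure.map_prod_map (geo q) (geo q) (f := id) (g := fun x : ℕ => (x, false))
      measurable_id (by fun_prop)
    rw [Measure.map_id] at h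
    rw [h, Measure.map_map measurable_phi0 (by fun_prop)]
    have : phi0 ∘ Prod.map id (fun x : ℕ => (x, false)) = (fun k => (k, k)) ∘ Prod.fst := by
      funext e
      simp [phi0]
    rw [this, ← Measure.map_map (measurable_from_nat) measurable_fst, Measure.map_fst_prod,
      measure_univ, one_smul]
  have : SFinite (ENNReal.ofReal (1 - Real.exp (-t)) • Measure.dirac true : Measure Bool) :=
    inferInstance
  rw [Measure.prod_add, Measure.prod_smul_right, Measure.prod_smul_right, Measure.prod_add,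
    Measure.prod_smul_right, Measure.prod_smul_right, Measure.map_add _ _ measurable_phi0,
    Measure.map_smul, Measure.map_smul, e1, e2, add_comm]
  congr 2
  ring_nf

/-- The rotation of the lattice. -/
def iot (y : ℤ × ℤ) : Site := (y.1 + y.2, y.1 - y.2)

theorem iot_inj : Function.Injective iot := by
  intro x y h
  unfold iot at h
  simp only [Prod.mk.injEq] at h
  refine Prod.ext ?_ ?_ <;> omega

theorem rot_iot (ω : Env) {x : Site} (hx : (x.1 + x.2) % 2 = 0) :
    rot (fun y => ω (iot y)) x = ω x := by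
  unfold rot iot
  have h1 : (x.1 + x.2) / 2 + (x.1 - x.2) / 2 = x.1 := by omega
  have h2 : (x.1 + x.2) / 2 - (x.1 - x.2) / 2 = x.2 := by omega
  simp only [h1, h2]

theorem mp_integral {α β : Type*} [MeasurableSpace α] [MeasurableSpace β] {μ : Measure α}
    {ν : Measure β} {g : α → β} (hg : MeasurePreserving g μ ν) {f : β → ℝ}
    (hf : AEStronglyMeasurable f ν) : ∫ x, f (g x) ∂μ = ∫ y, f y ∂ν := by
  rw [← hg.map_eq] at hf ⊢
  rw [integral_map hg.aemeasurable hf]

theorem measurable_rot : Measurable rot := by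
  unfold rot
  fun_prop

theorem measurable_ff (n : ℕ) : Measurable (ff n) :=
  Pool.Agent.H22.LPP.measurable_T (0, 0) (2 * n, 0)

theorem pf_COR (hLPT : T_LPT) (hGMO : T_GMO) (hNIC : T_NIC) (hINT : T_INT) (hPLI : T_PLI) :
    T_COR := by
  intro p hp0 hp1 t ht n
  set q := 1 - p with hq
  have hq0 : 0 ≤ q := by linarith
  have hq1 : q < 1 := by linarith
  have he : Real.exp (-t) ≤ 1 := by rw [Real.exp_le_one_iff]; linarith
  have hepos := Real.exp_pos (-t)
  set r := 1 - Real.exp (-t) with hr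
  have hr0 : 0 ≤ r := by linarith
  have hr1 : r ≤ 1 := by linarith
  have hN : Nice (domN n) (ff n) := hNIC.2.2.2.2.2.2 n
  -- the two laws
  let ν : Measure (ℤ × ℤ → ℕ × ℕ) := Measure.infinitePi (fun _ => pairLaw q r)
  have hφ : MeasurePreserving (fun (F : ℤ × ℤ → ℕ × ℕ × Bool) (y : ℤ × ℤ) => phi0 (F y))
      (noiseLaw p t) ν := by
    refine ⟨by
      refine measurable_pi_lambda _ fun y => ?_
      exact measurable_phi0.comp (measurable_pi_apply y), ?_⟩
    unfold noiseLaw
    rw [Measure.infinitePi_map_pi _ (fun _ => measurable_phi0)]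
    simp only [← hq, site_law q t ht]
    rfl
  have hκ : MeasurePreserving (fun (E : PEnv) (y : ℤ × ℤ) => E (iot y)) (PN q (fun _ => r)) ν := by
    refine ⟨by fun_prop, ?_⟩
    unfold PN
    exact Measure.map_infinitePi_infinitePi_of_inj (P := fun _ : Site => pairLaw q r) iot_inj
  -- the two functionals
  let X : (ℤ × ℤ → ℕ × ℕ) → ℝ := fun W => Tn n (fun y => (W y).1)
  let Y : (ℤ × ℤ → ℕ × ℕ) → ℝ := fun W => Tn n (fun y => (W y).2)
  have hTm : Measurable (fun ω : ℤ × ℤ → ℕ => Tn n ω) := by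
    have : (fun ω : ℤ × ℤ → ℕ => Tn n ω) = fun ω => ((ω (0, 0) : ℕ) : ℝ) + ff n (rot ω) := by
      funext ω
      exact hLPT ω n
    rw [this]
    refine Measurable.add ?_ ((measurable_ff n).comp measurable_rot)
    exact (measurable_from_nat (f := fun k : ℕ => (k : ℝ))).comp (measurable_pi_apply _)
  have hXm : Measurable X := hTm.comp (by fun_prop)
  have hYm : Measurable Y := hTm.comp (by fun_prop)
  have hX1 : (fun F => Tn n (om F)) =
      X ∘ (fun (F : ℤ × ℤ → ℕ × ℕ × Bool) (y : ℤ × ℤ) => phi0 (F y)) := rfl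
  have hY1 : (fun F => Tn n (omNoisy F)) =
      Y ∘ (fun (F : ℤ × ℤ → ℕ × ℕ × Bool) (y : ℤ × ℤ) => phi0 (F y)) := rfl
  have hX2 : X ∘ (fun (E : PEnv) (y : ℤ × ℤ) => E (iot y)) =
      fun E => ((eA E (0, 0) : ℕ) : ℝ) + ff n (eA E) := by
    funext E
    simp only [Function.comp_apply, X]
    rw [hLPT]
    congr 1
    refine hN.dep _ _ fun x hx => ?_
    have hx2 : (x.1 + x.2) % 2 = 0 := by
      unfold domN at hx
      rw [Finset.mem_filter] at hx
      exact hx.2.2.2
    exact rot_iot (eA E) hx2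
  have hY2 : Y ∘ (fun (E : PEnv) (y : ℤ × ℤ) => E (iot y)) =
      fun E => ((eB E (0, 0) : ℕ) : ℝ) + ff n (eB E) := by
    funext E
    simp only [Function.comp_apply, Y]
    rw [hLPT]
    congr 1
    refine hN.dep _ _ fun x hx => ?_
    have hx2 : (x.1 + x.2) % 2 = 0 := by
      unfold domN at hx
      rw [Finset.mem_filter] at hx
      exact hx.2.2.2
    exact rot_iot (eB E) hx2
  -- moments
  set μ := PN q (fun _ => r) with hμ
  have hg2 : MemLp (fun k : ℕ => (k : ℝ)) 2 (geo q) := by
    rw [memLp_two_iff_integrable_sq (by fun_prop)]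
    exact hGMO q hq0 hq1 2
  have hf2 : MemLp (ff n) 2 (PE q) := by
    rw [memLp_two_iff_integrable_sq (measurable_ff n).aestronglyMeasurable]
    have := (hINT q hq0 hq1 _ _ _ hN hN).2.1
    simpa [pow_two] using this
  have hev : MeasurePreserving (Function.eval (0, 0)) (PE q) (geo q) :=
    measurePreserving_eval_infinitePi (fun _ : Site => geo q) (0, 0)
  have hw2 : MemLp (fun ω : Env => ((ω (0, 0) : ℕ) : ℝ)) 2 (PE q) :=
    hg2.comp_measurePreserving hev
  have hA0 : MemLp (fun E : PEnv => ((eA E (0, 0) : ℕ) : ℝ)) 2 μ :=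
    hw2.comp_measurePreserving (mp_eA q _)
  have hB0 : MemLp (fun E : PEnv => ((eB E (0, 0) : ℕ) : ℝ)) 2 μ :=
    hw2.comp_measurePreserving (mp_eB q _)
  have hAf : MemLp (fun E : PEnv => ff n (eA E)) 2 μ := hf2.comp_measurePreserving (mp_eA q _)
  have hBf : MemLp (fun E : PEnv => ff n (eB E)) 2 μ := hf2.comp_measurePreserving (mp_eB q _)
  have hdisj : Disjoint ({((0 : ℤ), (0 : ℤ))} : Set Site) (domN n : Set Site) := by
    rw [Set.disjoint_singleton_left]
    intro h
    have h' : ((0 : ℤ), (0 : ℤ)) ∈ domN n := h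
    unfold domN at h'
    rw [Finset.mem_filter, Finset.mem_product, Finset.mem_Icc] at h'
    simp at h'
  have hmA0 : Measurable (fun E : PEnv => ((eA E (0, 0) : ℕ) : ℝ)) := by
    unfold eA; fun_prop
  have hmB0 : Measurable (fun E : PEnv => ((eB E (0, 0) : ℕ) : ℝ)) := by
    unfold eB; fun_prop
  have hmAf : Measurable (fun E : PEnv => ff n (eA E)) := (measurable_ff n).comp measurable_eA
  have hmBf : Measurable (fun E : PEnv => ff n (eB E)) := (measurable_ff n).comp measurable_eB
  have dA0 : DepA ({((0 : ℤ), (0 : ℤ))} : Set Site) (fun E : PEnv => ((eA E (0, 0) : ℕ) : ℝ)) := by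
    intro E E' h
    have := h (0, 0) rfl
    simp only [eA, this]
  have dB0 : DepA ({((0 : ℤ), (0 : ℤ))} : Set Site) (fun E : PEnv => ((eB E (0, 0) : ℕ) : ℝ)) := by
    intro E E' h
    have := h (0, 0) rfl
    simp only [eB, this]
  have dAf : DepA (domN n : Set Site) (fun E : PEnv => ff n (eA E)) := by
    intro E E' h
    refine hN.dep _ _ fun x hx => ?_
    simp only [eA, h x hx]
  have dBf : DepA (domN n : Set Site) (fun E : PEnv => ff n (eB E)) := by
    intro E E' h
    refine hN.dep _ _ fun x hx => ?_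
    simp only [eB, h x hx]
  have c1 : cov[fun E : PEnv => ((eA E (0, 0) : ℕ) : ℝ), fun E : PEnv => ff n (eB E); μ] = 0 :=
    (indepFun_PN q _ hdisj hmA0 hmBf dA0 dBf).covariance_eq_zero hA0 hBf
  have c2 : cov[fun E : PEnv => ff n (eA E), fun E : PEnv => ((eB E (0, 0) : ℕ) : ℝ); μ] = 0 := by
    rw [covariance_comm]
    exact (indepFun_PN q _ hdisj hmB0 hmAf dB0 dAf).covariance_eq_zero hB0 hAf
  -- the covariance at the origin
  have hevp : MeasurePreserving (Function.eval (0, 0)) μ (pairLaw q r) :=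
    measurePreserving_eval_infinitePi (fun _ : Site => pairLaw q r) (0, 0)
  have hI1 : Integrable (fun k : ℕ => (k : ℝ) * (k : ℝ)) (geo q) := by
    have := hGMO q hq0 hq1 2
    simpa [pow_two] using this
  have hI0 : Integrable (fun k : ℕ => (k : ℝ)) (geo q) := by
    have := hGMO q hq0 hq1 1
    simpa using this
  have hI2 : Integrable (fun e : ℕ × ℕ => (e.1 : ℝ) * (e.2 : ℝ)) ((geo q).prod (geo q)) :=
    hI0.mul_prod hI0
  have c3 : cov[fun E : PEnv => ((eA E (0, 0) : ℕ) : ℝ), fun E : PEnv => ((eB E (0, 0) : ℕ) : ℝ); μ]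
      = Real.exp (-t) * Var[fun k : ℕ => (k : ℝ); geo q] := by
    rw [covariance_eq_sub hA0 hB0, variance_eq_sub hg2]
    have m1 : ∫ E, ((eA E (0, 0) : ℕ) : ℝ) ∂μ = ∫ k : ℕ, (k : ℝ) ∂(geo q) :=
      mp_integral (hev.comp (mp_eA q (fun _ => r))) (f := fun k : ℕ => (k : ℝ))
        (by fun_prop)
    have m2 : ∫ E, ((eB E (0, 0) : ℕ) : ℝ) ∂μ = ∫ k : ℕ, (k : ℝ) ∂(geo q) :=
      mp_integral (hev.comp (mp_eB q (fun _ => r))) (f := fun k : ℕ => (k : ℝ))
        (by fun_prop)
    have m3 : ∫ E, ((eA E (0, 0) : ℕ) : ℝ) * ((eB E (0, 0) : ℕ) : ℝ) ∂μ =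
        ∫ e : ℕ × ℕ, (e.1 : ℝ) * (e.2 : ℝ) ∂(pairLaw q r) :=
      mp_integral hevp (f := fun e : ℕ × ℕ => (e.1 : ℝ) * (e.2 : ℝ))
        (measurable_of_countable _).aestronglyMeasurable
    have m4 := (hPLI q r hr0 hr1 (fun e => (e.1 : ℝ) * (e.2 : ℝ)) hI1 hI2).2
    simp only [Pi.mul_apply, Pi.pow_apply]
    rw [m1, m2, m3, m4]
    have m5 : ∫ e : ℕ × ℕ, (e.1 : ℝ) * (e.2 : ℝ) ∂((geo q).prod (geo q)) =
        (∫ k : ℕ, (k : ℝ) ∂(geo q)) * ∫ k : ℕ, (k : ℝ) ∂(geo q) :=
      integral_prod_mul (fun k : ℕ => (k : ℝ)) (fun k : ℕ => (k : ℝ))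
    rw [m5]
    simp only [hr, pow_two]
    ring
  -- the covariance
  have hcov : cov[fun F => Tn n (om F), fun F => Tn n (omNoisy F); noiseLaw p t] =
      Real.exp (-t) * Var[fun k : ℕ => (k : ℝ); geo q] + VV q n (fun _ => r) := by
    rw [hX1, hY1, ← covariance_map (μ := noiseLaw p t) hXm.aestronglyMeasurable
      hYm.aestronglyMeasurable hφ.aemeasurable, hφ.map_eq, ← hκ.map_eq,
      covariance_map hXm.aestronglyMeasurable hYm.aestronglyMeasurable hκ.aemeasurable, hX2, hY2]
    have e1 : (fun E : PEnv => ((eA E (0, 0) : ℕ) : ℝ) + ff n (eA E)) =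
        (fun E : PEnv => ((eA E (0, 0) : ℕ) : ℝ)) + fun E => ff n (eA E) := rfl
    have e2 : (fun E : PEnv => ((eB E (0, 0) : ℕ) : ℝ) + ff n (eB E)) =
        (fun E : PEnv => ((eB E (0, 0) : ℕ) : ℝ)) + fun E => ff n (eB E) := rfl
    rw [e1, e2, covariance_add_left hA0 hAf (hB0.add hBf), covariance_add_right hA0 hB0 hBf,
      covariance_add_right hAf hB0 hBf, c1, c2, c3]
    unfold VV
    ring
  -- the variances
  have hPEind : Var[fun ω : Env => ((ω (0, 0) : ℕ) : ℝ) + ff n ω; PE q] =
      Var[fun k : ℕ => (k : ℝ); geo q] + Var[ff n; PE q] := by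
    have hind : IndepFun (fun ω : Env => ((ω (0, 0) : ℕ) : ℝ)) (ff n) (PE q) := by
      refine indepFun_dep (fun _ : Site => geo q) hdisj
        (by fun_prop) (measurable_ff n) ?_ ?_
      · intro E E' h
        have := h (0, 0) rfl
        simp only [this]
      · intro E E' h
        exact hN.dep _ _ fun x hx => h x hx
    have := hind.variance_add hw2 hf2
    have e1 : (fun ω : Env => ((ω (0, 0) : ℕ) : ℝ) + ff n ω) =
        (fun ω : Env => ((ω (0, 0) : ℕ) : ℝ)) + ff n := rfl
    rw [e1, this]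
    congr 1
    exact hev.variance_fun_comp (f := fun k : ℕ => (k : ℝ)) (by fun_prop)
  have hmsum : Measurable (fun ω : Env => ((ω (0, 0) : ℕ) : ℝ) + ff n ω) := by
    refine Measurable.add ?_ (measurable_ff n)
    fun_prop
  have hvX : Var[fun F => Tn n (om F); noiseLaw p t] =
      Var[fun k : ℕ => (k : ℝ); geo q] + Var[ff n; PE q] := by
    rw [hX1, ← variance_map (μ := noiseLaw p t) hXm.aemeasurable hφ.aemeasurable, hφ.map_eq,
      ← hκ.map_eq, variance_map hXm.aemeasurable hκ.aemeasurable, hX2, ← hPEind]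
    exact (mp_eA q (fun _ => r)).variance_fun_comp hmsum.aemeasurable
  have hvY : Var[fun F => Tn n (omNoisy F); noiseLaw p t] =
      Var[fun k : ℕ => (k : ℝ); geo q] + Var[ff n; PE q] := by
    rw [hY1, ← variance_map (μ := noiseLaw p t) hYm.aemeasurable hφ.aemeasurable, hφ.map_eq,
      ← hκ.map_eq, variance_map hYm.aemeasurable hκ.aemeasurable, hY2, ← hPEind]
    exact (mp_eB q (fun _ => r)).variance_fun_comp hmsum.aemeasurable
  unfold corrT corr
  rw [hcov, hvX, hvY, Real.mul_self_sqrt]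
  exact add_nonneg (variance_nonneg _ _) (variance_nonneg _ _)

end Pool.Agent.H97.NF
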