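import Pool.Agent.H97.NF.PB
import Pool.Agent.H20.GL.GEO

/-!
# PB: the proof
-/

open MeasureTheory ProbabilityTheory Filter Topology
open scoped ENNReal

namespace Pool.Agent.H97.NF

open Pool.Agent.H99.NS

theorem lint_shift (q : ℝ) (hq0 : 0 ≤ q) (hq1 : q < 1) (M : ℕ) (f : ℕ → ℝ≥0∞) :
    ∫⁻ k, (if M ≤ k then f (k - M) else 0) ∂(geo q) =
      ENNReal.ofReal (q ^ M) * ∫⁻ k, f k ∂(geo q) := by
  rw [Pool.Agent.H20.GL.GEO.lintegral_geo q hq0 hq1, Pool.Agent.H20.GL.GEO.lintegral_geo q hq0 hq1,
    ← Summable.sum_add_tsum_nat_add' (k := M) ENNReal.summable]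
  have z : ∑ i ∈ Finset.range M, ENNReal.ofReal ((1 - q) * q ^ i) *
      (if M ≤ i then f (i - M) else 0) = 0 := by
    refine Finset.sum_eq_zero fun i hi => ?_
    have := Finset.mem_range.1 hi
    rw [if_neg (by omega), mul_zero]
  rw [z, zero_add, ← ENNReal.tsum_mul_left]
  refine tsum_congr fun i => ?_
  rw [if_pos (by omega), Nat.add_sub_cancel, ← mul_assoc, ← ENNReal.ofReal_mul (by positivity)]
  congr 2
  rw [pow_add]
  ring

theorem osv (q : ℝ) (hq0 : 0 < q) (hq1 : q < 1) (hGMO : T_GMO) : ∃ C : ℝ, 0 < C ∧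
    ∀ β s : ℝ, Var[fun k : ℕ => β + max s (k : ℝ); geo q] ≤ C * (geo q).real {k : ℕ | s < k} := by
  have i1 : Integrable (fun k : ℕ => (k : ℝ)) (geo q) := by
    have := hGMO q hq0.le hq1 1
    simpa using this
  have i2 : Integrable (fun k : ℕ => (k : ℝ) ^ 2) (geo q) := hGMO q hq0.le hq1 2
  have i3 : Integrable (fun k : ℕ => ((k : ℝ) + 1) ^ 2) (geo q) := by
    have : (fun k : ℕ => ((k : ℝ) + 1) ^ 2) = fun k : ℕ => (k : ℝ) ^ 2 + (2 * (k : ℝ) + 1) := by
      funext k; ring
    rw [this]
    exact i2.add ((i1.const_mul 2).add (integrable_const 1))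
  have meas : ∀ f : ℕ → ℝ, AEStronglyMeasurable f (geo q) := fun f =>
    (measurable_of_countable f).aestronglyMeasurable
  set C := ∫ k : ℕ, ((k : ℝ) + 1) ^ 2 ∂(geo q) with hC
  have hC0 : 0 ≤ C := integral_nonneg fun k => by positivity
  refine ⟨C + 1, by linarith, fun β s => ?_⟩
  set c : ℝ := if s < 0 then -1 else s with hc
  set M : ℕ := if s < 0 then 0 else ⌊s⌋₊ + 1 with hM
  have hset : {k : ℕ | s < k} = {k : ℕ | M ≤ k} := by
    ext k
    simp only [Set.mem_ofPred_eq, hM]
    by_cases h : s < 0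
    · rw [if_pos h]
      have : (0 : ℝ) ≤ k := Nat.cast_nonneg k
      constructor
      · intro _; exact Nat.zero_le _
      · intro _; linarith
    · rw [if_neg h]
      push Not at h
      rw [Nat.succ_le_iff, Nat.floor_lt h]
  have htail : (geo q).real {k : ℕ | s < k} = q ^ M := by
    rw [hset]
    unfold Measure.real
    rw [Pool.Agent.H20.GL.GEO.tail_nat q hq0.le hq1, ENNReal.toReal_ofReal (by positivity)]
  have hpt : ∀ k : ℕ, ENNReal.ofReal ((max s (k : ℝ) - c) ^ 2) ≤
      if M ≤ k then (fun j : ℕ => ENNReal.ofReal (((j : ℝ) + 1) ^ 2)) (k - M) else 0 := by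
    intro k
    have hk0 : (0 : ℝ) ≤ k := Nat.cast_nonneg k
    by_cases h : s < 0
    · have hM0 : M = 0 := by rw [hM, if_pos h]
      rw [hM0, if_pos (Nat.zero_le _), Nat.sub_zero, hc, if_pos h, max_eq_right (by linarith)]
      refine ENNReal.ofReal_le_ofReal (le_of_eq ?_)
      ring
    · have hM1 : M = ⌊s⌋₊ + 1 := by rw [hM, if_neg h]
      have hc1 : c = s := by rw [hc, if_neg h]
      push Not at h
      split_ifs with hk
      · have h1 : s < k := by
          rw [hM1, Nat.succ_le_iff, Nat.floor_lt h] at hk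
          exact hk
        rw [hc1, max_eq_right h1.le]
        refine ENNReal.ofReal_le_ofReal ?_
        have h2 : ((k - M : ℕ) : ℝ) = (k : ℝ) - M := by
          rw [Nat.cast_sub hk]
        rw [h2, hM1]
        have h3 : ((⌊s⌋₊ : ℕ) : ℝ) ≤ s := Nat.floor_le h
        push_cast
        have h4 : 0 ≤ (k : ℝ) - s := by linarith
        exact pow_le_pow_left₀ h4 (by linarith) 2
      · have h1 : (k : ℝ) ≤ s := by
          rw [hM1, Nat.succ_le_iff, Nat.floor_lt h] at hk
          linarith
        rw [hc1, max_eq_left h1]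
        simp
  have hlint : ∫⁻ k : ℕ, ENNReal.ofReal ((max s (k : ℝ) - c) ^ 2) ∂(geo q) ≤
      ENNReal.ofReal (q ^ M * C) := by
    refine (lintegral_mono hpt).trans ?_
    rw [lint_shift q hq0.le hq1 M (fun j : ℕ => ENNReal.ofReal (((j : ℝ) + 1) ^ 2)),
      ← ofReal_integral_eq_lintegral_ofReal i3
      (ae_of_all _ fun k => by positivity), ← ENNReal.ofReal_mul (by positivity)]
  have h1 : Var[fun k : ℕ => β + max s (k : ℝ); geo q] =
      Var[fun k : ℕ => max s (k : ℝ) - c; geo q] := by
    rw [variance_sub_const (meas _), variance_const_add (meas _)]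
  have h2 := variance_le_expectation_sq (μ := geo q) (meas (fun k : ℕ => max s (k : ℝ) - c))
  have h3 : ∫ k : ℕ, (max s (k : ℝ) - c) ^ 2 ∂(geo q) ≤ q ^ M * C := by
    rw [integral_eq_lintegral_of_nonneg_ae (ae_of_all _ fun k => by positivity) (meas _)]
    exact ENNReal.toReal_le_of_le_ofReal (by positivity) hlint
  rw [h1, htail]
  have h4 : (0 : ℝ) ≤ q ^ M := by positivity
  calc Var[fun k : ℕ => max s (k : ℝ) - c; geo q]
      ≤ ∫ k : ℕ, (max s (k : ℝ) - c) ^ 2 ∂(geo q) := h2
    _ ≤ q ^ M * C := h3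
    _ ≤ (C + 1) * q ^ M := by nlinarith

/-- Zero profile: the correlation functional is the second moment. -/
theorem FF_zero (q : ℝ) (h : Env → ℝ) (hm : Measurable h) :
    FF q h h (fun _ => 0) = ∫ ω, h ω * h ω ∂(PE q) := by
  have hmp : MeasurePreserving (fun (ω : Env) (x : Site) => (ω x, ω x)) (PE q)
      (PN q (fun _ => 0)) := by
    refine ⟨by fun_prop, ?_⟩
    have h := Measure.infinitePi_map_pi (fun _ : Site => geo q)
      (f := fun _ k => (k, k)) (fun _ => measurable_from_nat)
    unfold PE PN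
    rw [h]
    simp only [pairLaw_zero]
  unfold FF
  rw [← mp_int hmp (f := fun E : PEnv => h (eA E) * h (eB E))
    ((hm.comp measurable_eA).mul (hm.comp measurable_eB)).aestronglyMeasurable]
  rfl

section

variable (F : Finset (Finset Site × ℝ)) (hF : F.Nonempty)

/-- The conditional variance at one site. -/
theorem cond_var {q C : ℝ}
    (hC : ∀ β s : ℝ, Var[fun k : ℕ => β + max s (k : ℝ); geo q] ≤
      C * (geo q).real {k : ℕ | s < k}) (hC0 : 0 < C) (ω : Env) (x : Site) :
    ∫ k, (supF F hF (Function.update ω x k) - Ex q x (supF F hF) ω) ^ 2 ∂(geo q) ≤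
      C * ∫ k, Set.indicator {ω | Crit F hF ω x} (fun _ => (1 : ℝ)) (Function.update ω x k)
        ∂(geo q) := by
  have meas : ∀ f : ℕ → ℝ, AEMeasurable f (geo q) := fun f =>
    (measurable_of_countable f).aemeasurable
  have e1 : ∫ k, (supF F hF (Function.update ω x k) - Ex q x (supF F hF) ω) ^ 2 ∂(geo q) =
      Var[fun k => supF F hF (Function.update ω x k); geo q] := by
    rw [variance_eq_integral (meas _)]
    rfl
  have e2 : ∫ k, Set.indicator {ω | Crit F hF ω x} (fun _ => (1 : ℝ)) (Function.update ω x k)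
      ∂(geo q) = (geo q).real {k | Crit F hF (Function.update ω x k) x} := by
    have : (fun k : ℕ => Set.indicator {ω | Crit F hF ω x} (fun _ => (1 : ℝ))
        (Function.update ω x k)) =
        Set.indicator {k : ℕ | Crit F hF (Function.update ω x k) x} (fun _ => (1 : ℝ)) := by
      funext k
      by_cases hk : Crit F hF (Function.update ω x k) x
      · rw [Set.indicator_of_mem (by exact hk), Set.indicator_of_mem (by exact hk)]
      · rw [Set.indicator_of_notMem (by exact hk), Set.indicator_of_notMem (by exact hk)]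
    rw [this, integral_indicator_const _ (MeasurableSet.of_discrete)]
    simp
  rw [e1, e2]
  rcases supF_update F hF ω x with h | ⟨β, s, h1, h2⟩
  · have : (fun k => supF F hF (Function.update ω x k)) =
        fun _ => supF F hF (Function.update ω x 0) := by
      funext k; exact h k
    rw [this]
    have h0 : Var[fun _ : ℕ => supF F hF (Function.update ω x 0); geo q] = 0 := by
      rw [variance_eq_integral (meas _)]
      simp
    rw [h0]
    exact mul_nonneg hC0.le measureReal_nonneg
  · have : (fun k => supF F hF (Function.update ω x k)) = fun k : ℕ => β + max s (k : ℝ) := by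
      funext k; exact h1 k
    rw [this]
    refine (hC β s).trans (mul_le_mul_of_nonneg_left ?_ hC0.le)
    exact measureReal_mono (fun k hk => h2 k hk)

theorem Dx_update (q : ℝ) (x : Site) (h : Env → ℝ) (ω : Env) (k : ℕ) :
    Dx q x h (Function.update ω x k) = h (Function.update ω x k) - Ex q x h ω := by
  unfold Dx Ex
  congr 1
  simp only [Function.update_idem]

theorem int_Dx_sq {q C : ℝ} (hq0 : 0 < q) (hq1 : q < 1) (hNIC : T_NIC) (hINT : T_INT)
    (hC : ∀ β s : ℝ, Var[fun k : ℕ => β + max s (k : ℝ); geo q] ≤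
      C * (geo q).real {k : ℕ | s < k}) (hC0 : 0 < C) (x : Site) :
    ∫ ω, Dx q x (supF F hF) ω * Dx q x (supF F hF) ω ∂(PE q) ≤
      C * ∫ ω, Set.indicator {ω | Crit F hF ω x} (fun _ => (1 : ℝ)) ω ∂(PE q) := by
  have hn := nice_supF F hF
  have hnD := hNIC.2.2.2.2.2.1 q hq0.le hq1 _ _ x hn
  have hmD : Measurable (Dx q x (supF F hF)) := hNIC.1 _ _ hnD
  have hI : Integrable (fun ω => Dx q x (supF F hF) ω * Dx q x (supF F hF) ω) (PE q) :=
    (hINT q hq0.le hq1 _ _ _ hnD hnD).2.1
  have hcm := measurableSet_crit F hF hNIC x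
  have hI2 : Integrable (fun ω => Set.indicator {ω | Crit F hF ω x} (fun _ => (1 : ℝ)) ω)
      (PE q) := (integrable_const (1 : ℝ)).indicator hcm
  have hmp := mp_updPE q x
  have e1 := mp_int hmp hI.aestronglyMeasurable
  have e2 := mp_int hmp hI2.aestronglyMeasurable
  have j1 := (hmp.integrable_comp hI.aestronglyMeasurable).2 hI
  have j2 := (hmp.integrable_comp hI2.aestronglyMeasurable).2 hI2
  rw [← e1, ← e2]
  have k1 := integral_prod _ j1
  have k2 := integral_prod _ j2
  simp only [Function.comp_def] at k1 k2 j1 j2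
  rw [k1, k2, ← integral_const_mul]
  refine integral_mono j1.integral_prod_left (j2.integral_prod_left.const_mul C) fun ω => ?_
  simp only [Dx_update]
  have := cond_var F hF hC hC0 ω x
  simpa only [pow_two] using this

end

theorem pf_PBI (hGMO : T_GMO) (hNIC : T_NIC) (hINT : T_INT) (hFE2 : T_FE2) (hMON : T_MON)
    (hLOC : T_LOC) : T_PBI := by
  classical
  intro q hq0 hq1
  obtain ⟨C, hC0, hC⟩ := osv q hq0 hq1 hGMO
  refine ⟨2 * C, by linarith, fun F hF ρ r L hρ hL => ?_⟩
  set h := supF F hF with hh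
  have hn : Nice (sitesF F) h := nice_supF F hF
  have hm : Measurable h := hNIC.1 _ _ hn
  obtain ⟨hI, hI2, _⟩ := hINT q hq0.le hq1 _ _ _ hn hn
  obtain ⟨i1, i2, i3⟩ := hI ρ
  have e0 : (fun E => (h (eA E) - h (eB E)) ^ 2) =
      fun E => (h (eA E) * h (eA E) + h (eB E) * h (eB E)) - 2 * (h (eA E) * h (eB E)) := by
    funext E; ring
  have hint : Integrable (fun E => (h (eA E) - h (eB E)) ^ 2) (PN q ρ) := by
    rw [e0]
    exact (i2.add i3).sub (i1.const_mul 2)
  refine ⟨hint, ?_⟩
  have hDn : ∀ x, Nice (sitesF F) (Dx q x h) := fun x => hNIC.2.2.2.2.2.1 q hq0.le hq1 _ _ x hn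
  -- change the sites one by one
  let R : Finset Site → Site → ℝ := fun U x => if x ∈ U then ρ x else 0
  have key : ∀ U : Finset Site, FF q h h (fun _ => 0) - FF q h h (R U) ≤
      ∑ x ∈ U, ρ x * ∫ ω, Dx q x h ω * Dx q x h ω ∂(PE q) := by
    intro U
    induction U using Finset.induction_on with
    | empty =>
      have : R ∅ = fun _ => 0 := by
        funext x
        simp [R]
      rw [this]
      simp
    | insert x U hx ih =>
      have e1 : R (insert x U) = Function.update (R U) x (ρ x) := by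
        funext y
        by_cases hy : y = x
        · subst hy
          simp [R]
        · simp [R, hy]
      have e2 : R U = Function.update (R U) x 0 := by
        funext y
        by_cases hy : y = x
        · subst hy
          simp [R, hx]
        · simp [Function.update_of_ne hy]
      have f1 := (hFE2 q hq0.le hq1 _ h h hn hn (R U) x (ρ x) (hρ x).1 (hρ x).2.2).1
      have f2 := (hFE2 q hq0.le hq1 _ h h hn hn (R U) x 0 le_rfl zero_le_one).1
      rw [← e1] at f1
      rw [← e2] at f2
      have hK : FF q (Dx q x h) (Dx q x h) (R U) ≤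
          ∫ ω, Dx q x h ω * Dx q x h ω ∂(PE q) := by
        rw [← FF_zero q _ (hNIC.1 _ _ (hDn x))]
        refine hMON q hq0.le hq1 _ _ (hDn x) _ _ fun y _ => ⟨le_rfl, ?_, ?_⟩
        · simp only [R]
          split_ifs
          · exact (hρ y).1
          · exact le_rfl
        · simp only [R]
          split_ifs
          · exact (hρ y).2.2
          · exact zero_le_one
      rw [← e2] at f1
      rw [Finset.sum_insert hx]
      have := mul_le_mul_of_nonneg_left hK (hρ x).1
      nlinarith
  have hfin := key (sitesF F)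
  have e3 : FF q h h (R (sitesF F)) = FF q h h ρ := by
    refine hLOC q _ h h hn hn _ _ fun x hx => ?_
    simp [R, hx]
  rw [e3] at hfin
  -- the influences
  have hinf : ∑ x ∈ sitesF F, ρ x * ∫ ω, Dx q x h ω * Dx q x h ω ∂(PE q) ≤ C * (r * L) := by
    have h1 : ∀ x ∈ sitesF F, ρ x * ∫ ω, Dx q x h ω * Dx q x h ω ∂(PE q) ≤
        C * ∫ ω, ρ x * Set.indicator {ω | Crit F hF ω x} (fun _ => (1 : ℝ)) ω ∂(PE q) := by
      intro x _
      rw [integral_const_mul, ← mul_assoc, mul_comm C (ρ x), mul_assoc]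
      exact mul_le_mul_of_nonneg_left (int_Dx_sq F hF hq0 hq1 hNIC hINT hC hC0 x) (hρ x).1
    refine (Finset.sum_le_sum h1).trans ?_
    rw [← Finset.mul_sum, ← integral_finset_sum]
    · refine mul_le_mul_of_nonneg_left ?_ hC0.le
      have h2 : ∀ ω, ∑ x ∈ sitesF F, ρ x * Set.indicator {ω | Crit F hF ω x}
          (fun _ => (1 : ℝ)) ω ≤ r * L := fun ω => sum_crit_le F hF ρ r L hρ hL ω _
      calc ∫ ω, ∑ x ∈ sitesF F, ρ x * Set.indicator {ω | Crit F hF ω x}
              (fun _ => (1 : ℝ)) ω ∂(PE q) ≤ ∫ _, r * L ∂(PE q) := by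
            refine integral_mono ?_ (integrable_const _) h2
            refine integrable_finset_sum _ fun x _ => ?_
            exact ((integrable_const (1 : ℝ)).indicator (measurableSet_crit F hF hNIC x)).const_mul _
        _ = r * L := by simp
    · intro x _
      exact ((integrable_const (1 : ℝ)).indicator (measurableSet_crit F hF hNIC x)).const_mul _
  -- expand the square
  have hA : ∫ E, h (eA E) * h (eA E) ∂(PN q ρ) = ∫ ω, h ω * h ω ∂(PE q) :=
    mp_int (mp_eA q ρ) hI2.aestronglyMeasurable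
  have hB : ∫ E, h (eB E) * h (eB E) ∂(PN q ρ) = ∫ ω, h ω * h ω ∂(PE q) :=
    mp_int (mp_eB q ρ) hI2.aestronglyMeasurable
  have hexp : ∫ E, (h (eA E) - h (eB E)) ^ 2 ∂(PN q ρ) =
      2 * (FF q h h (fun _ => 0) - FF q h h ρ) := by
    have t1 : ∫ E, (h (eA E) * h (eA E) + h (eB E) * h (eB E)) - 2 * (h (eA E) * h (eB E))
        ∂(PN q ρ) = (∫ E, (h (eA E) * h (eA E) + h (eB E) * h (eB E)) ∂(PN q ρ)) -
          ∫ E, 2 * (h (eA E) * h (eB E)) ∂(PN q ρ) := integral_sub (i2.add i3) (i1.const_mul 2)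
    have t2 : ∫ E, (h (eA E) * h (eA E) + h (eB E) * h (eB E)) ∂(PN q ρ) =
        (∫ E, h (eA E) * h (eA E) ∂(PN q ρ)) + ∫ E, h (eB E) * h (eB E) ∂(PN q ρ) :=
      integral_add i2 i3
    rw [e0, t1, t2, integral_const_mul, hA, hB, FF_zero q h hm]
    unfold FF
    ring
  rw [hexp]
  linarith

end Pool.Agent.H97.NF
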