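import Pool.Agent.H97.NF.Mono
import Pool.Agent.H97.NF.Cor
import Pool.Agent.H97.NF.PB2
import Pool.Agent.H97.NF.Bridge
import Pool.Agent.H85.NF.GMO
import Pool.Agent.H85.NF.NIC
import Pool.Agent.H85.NF.FE1
import Pool.Agent.H85.NF.VVF
import Pool.Agent.H75.NF.INT
import Pool.Agent.H75.NF.PARTF
import Pool.Agent.H62.NF.LOC
import Pool.Agent.H19.NF.ALL
import Pool.Agent.H19.NF.LPT
import Pool.Agent.H19.NF.ONE
import Pool.Agent.H10.NF.OVL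
import Pool.Agent.H10.NF.QST
import Pool.Agent.H2.NF.FE2
import Pool.Agent.H2.NF.PLI
import Pool.Agent.H33.NF.CNT

/-!
# Part F: assembly of all targets
-/

open MeasureTheory ProbabilityTheory Filter Topology
open scoped ENNReal

namespace Pool.Agent.H97.NF

open Pool.Agent.H99.NS

theorem a_GMO : T_GMO := Pool.Agent.H85.NF.pf_GMO
theorem a_NIC : T_NIC := Pool.Agent.H85.NF.pf_NIC a_GMO
theorem a_MAR : T_MAR := pf_MAR
theorem a_UPD : T_UPD := pf_UPD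
theorem a_ZIP : T_ZIP := pf_ZIP
theorem a_PLI : T_PLI := Pool.Agent.H2.NF.pf_PLI
theorem a_INT : T_INT := Pool.Agent.H75.NF.INT.pf_INT a_GMO a_NIC a_MAR
theorem a_FE1 : T_FE1 := Pool.Agent.H85.NF.pf_FE1 a_GMO a_NIC a_UPD a_PLI a_INT
theorem a_FE2 : T_FE2 := Pool.Agent.H2.NF.pf_FE2 a_FE1 a_NIC a_INT
theorem a_LOC : T_LOC := Pool.Agent.H62.NF.pf_LOC a_NIC
theorem a_POS : T_POS := Pool.Agent.H62.NF.pf_POS a_NIC a_FE1 a_LOC
theorem a_MON : T_MON := pf_MON a_NIC a_FE2 a_POS a_LOC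
theorem a_VVF : T_VVF := Pool.Agent.H85.NF.pf_VVF a_NIC a_MAR a_ZIP a_INT a_LOC a_POS a_MON
theorem a_VDI : T_VDI := pf_VDI a_NIC a_FE2 a_MON a_LOC a_VVF
theorem a_DYS : T_DYS := Pool.Agent.H62.NF.pf_DYS a_VDI a_VVF
theorem a_OVL : T_OVL := Pool.Agent.H10.NF.OVL.pf_OVL a_GMO a_NIC a_INT a_UPD a_PLI
theorem a_QST : T_QST := Pool.Agent.H10.NF.QST.pf_QST a_ZIP a_INT a_NIC a_VVF
theorem a_TIL : T_TIL := Pool.Agent.H62.NF.pf_TIL a_QST a_VVF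
theorem a_CNT : T_CNT := Pool.Agent.H33.NF.pf_CNT
theorem a_ONE : T_ONE := Pool.Agent.H19.NF.pf_ONE a_TIL a_CNT a_VVF
theorem a_ALL : T_ALL := Pool.Agent.H19.NF.pf_ALL a_ONE a_DYS a_VVF
theorem a_LPT : T_LPT := Pool.Agent.H19.NF.pf_LPT
theorem a_COR : T_COR := pf_COR a_LPT a_GMO a_NIC a_INT a_PLI
theorem a_PARTF : T_PARTF := Pool.Agent.H75.NF.PARTF.pf_PARTF a_ALL a_COR a_VVF
theorem a_PBI : T_PBI := pf_PBI a_GMO a_NIC a_INT a_FE2 a_MON a_LOC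

/-- Part F: the problem from the two inputs. -/
theorem partF (hK : ∀ q : ℝ, 0 < q → q < 1 → KK q) (hV : Pool.Agent.H84.GL.D_VAR) (p : ℝ)
    (hp0 : 0 < p) (hp1 : p < 1) :
    NoiseSensitive p ∧
    ∃ C : ℝ, ∀ n : ℕ, 2 ≤ n → ∀ t : ℝ, 0 < t →
      0 ≤ corrT p t n ∧
      corrT p t n ≤ C / (1 + max 0 (Real.log ((n : ℝ) ^ ((1 : ℝ) / 3) * min t 1))) :=
  a_PARTF p hp0 hp1 (hK (1 - p) (by linarith) (by linarith))
    (dvar_of hV (1 - p) (by linarith) (by linarith))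

end Pool.Agent.H97.NF
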