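import Pool.Agent.H97.NF.Pair

/-!
# Monotonicity in the profile, the discrete differential inequality
-/

open MeasureTheory ProbabilityTheory Filter Topology
open scoped ENNReal

namespace Pool.Agent.H97.NF

open Pool.Agent.H99.NS

theorem pf_MON (hNIC : T_NIC) (hFE2 : T_FE2) (hPOS : T_POS) (hLOC : T_LOC) : T_MON := by
  classical
  intro q hq0 hq1 S h hh ρ ρ' hρ
  have hDx : ∀ x, Nice S (Dx q x h) := fun x => hNIC.2.2.2.2.2.1 q hq0 hq1 S h x hh
  let R : Finset Site → Site → ℝ := fun U x => if x ∈ U then ρ' x else ρ x
  have key : ∀ U : Finset Site, U ⊆ S → FF q h h (R U) ≤ FF q h h ρ := by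
    intro U
    induction U using Finset.induction_on with
    | empty =>
      intro _
      have : R ∅ = ρ := by
        funext x
        simp [R]
      rw [this]
    | insert x U hx ih =>
      intro hU
      have hxS : x ∈ S := hU (Finset.mem_insert_self _ _)
      have ih' := ih (fun y hy => hU (Finset.mem_insert_of_mem hy))
      obtain ⟨h0, h1, h2⟩ := hρ x hxS
      have e1 : R (insert x U) = Function.update (R U) x (ρ' x) := by
        funext y
        by_cases hy : y = x
        · subst hy
          simp [R]
        · simp [R, Function.update_of_ne hy, hy]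
      have e2 : R U = Function.update (R U) x (ρ x) := by
        funext y
        by_cases hy : y = x
        · subst hy
          simp [R, hx]
        · simp [Function.update_of_ne hy]
      have f1 := (hFE2 q hq0 hq1 S h h hh hh (R U) x (ρ' x) (h0.trans h1) h2).1
      have f2 := (hFE2 q hq0 hq1 S h h hh hh (R U) x (ρ x) h0 (h1.trans h2)).1
      rw [← e1] at f1
      rw [← e2] at f2
      have hK := hPOS q hq0 hq1 S _ (hDx x) (Function.update (R U) x 0)
      nlinarith
  have hfin := key S (fun _ h => h)
  have : FF q h h (R S) = FF q h h ρ' := by
    refine hLOC q S h h hh hh _ _ fun x hx => ?_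
    simp [R, hx]
  rw [this] at hfin
  exact hfin

theorem pf_VDI (hNIC : T_NIC) (hFE2 : T_FE2) (hMON : T_MON) (hLOC : T_LOC) (hVVF : T_VVF) :
    T_VDI := by
  classical
  intro q hq0 hq1 n r r' hr0 hrr hr1
  set f := ff n with hf
  set S := domN n with hS
  have hh : Nice S f := hNIC.2.2.2.2.2.2 n
  have hDx : ∀ x, Nice S (Dx q x f) := fun x => hNIC.2.2.2.2.2.1 q hq0 hq1 S f x hh
  let R : Finset Site → Site → ℝ := fun U x => if x ∈ U then r' else r
  have key : ∀ U : Finset Site, U ⊆ S →
      (r' - r) * ∑ x ∈ U, Infx q n (fun _ => r') x ≤
        FF q f f (fun _ => r) - FF q f f (R U) := by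
    intro U
    induction U using Finset.induction_on with
    | empty =>
      intro _
      have : R ∅ = fun _ => r := by
        funext x
        simp [R]
      rw [this]
      simp
    | insert x U hx ih =>
      intro hU
      have ih' := ih (fun y hy => hU (Finset.mem_insert_of_mem hy))
      have e1 : R (insert x U) = Function.update (R U) x r' := by
        funext y
        by_cases hy : y = x
        · subst hy
          simp [R]
        · simp [R, Function.update_of_ne hy, hy]
      have e2 : R U = Function.update (R U) x r := by
        funext y
        by_cases hy : y = x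
        · subst hy
          simp [R, hx]
        · simp [Function.update_of_ne hy]
      have f1 := (hFE2 q hq0 hq1 S f f hh hh (R U) x r' (hr0.trans hrr) hr1).1
      have f2 := (hFE2 q hq0 hq1 S f f hh hh (R U) x r hr0 (hrr.trans hr1)).1
      rw [← e1] at f1
      rw [← e2] at f2
      have hK : Infx q n (fun _ => r') x ≤
          FF q (Dx q x f) (Dx q x f) (Function.update (R U) x 0) := by
        have := hMON q hq0 hq1 S (Dx q x f) (hDx x) (Function.update (R U) x 0) (fun _ => r')
          (by
            intro y _
            by_cases hy : y = x
            · subst hy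
              rw [Function.update_self]
              exact ⟨le_rfl, hr0.trans hrr, hr1⟩
            · rw [Function.update_of_ne hy]
              by_cases hyU : y ∈ U
              · simp only [R, hyU, if_true]
                exact ⟨hr0.trans hrr, le_rfl, hr1⟩
              · simp only [R, hyU, if_false]
                exact ⟨hr0, hrr, hr1⟩)
        exact this
      rw [Finset.sum_insert hx, mul_add]
      have : (r' - r) * Infx q n (fun _ => r') x ≤
          (r' - r) * FF q (Dx q x f) (Dx q x f) (Function.update (R U) x 0) :=
        mul_le_mul_of_nonneg_left hK (by linarith)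
      linarith
  have hfin := key S (fun _ h => h)
  have e3 : FF q f f (R S) = FF q f f (fun _ => r') := by
    refine hLOC q S f f hh hh _ _ fun x hx => ?_
    simp [R, hx]
  rw [e3] at hfin
  have v1 := (hVVF q hq0 hq1 n).1 (fun _ => r)
  have v2 := (hVVF q hq0 hq1 n).1 (fun _ => r')
  rw [v1, v2]
  unfold Inft
  linarith

end Pool.Agent.H97.NF
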