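import Pool.Agent.H97.NF.Mono

/-!
# PB: functionals given by a maximum over a finite family of sets of sites
-/

open MeasureTheory ProbabilityTheory Filter Topology
open scoped ENNReal

namespace Pool.Agent.H97.NF

open Pool.Agent.H99.NS

/-- The value of one member of the family. -/
noncomputable def valF (a : Finset Site × ℝ) (ω : Env) : ℝ := a.2 + ∑ x ∈ a.1, (ω x : ℝ)

/-- Maximum over a finite nonempty family of (set of sites, offset). -/
noncomputable def supF (F : Finset (Finset Site × ℝ)) (hF : F.Nonempty) (ω : Env) : ℝ :=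
  F.sup' hF (fun a => valF a ω)

/-- (PB) The mean square change of a maximum over a family under a noise of intensity at most
`r`, if every set of the family has at most `L` noisy sites. -/
def T_PBI : Prop := ∀ q : ℝ, 0 < q → q < 1 → ∃ C : ℝ, 0 < C ∧
  ∀ (F : Finset (Finset Site × ℝ)) (hF : F.Nonempty) (ρ : Site → ℝ) (r L : ℝ),
  (∀ x, 0 ≤ ρ x ∧ ρ x ≤ r ∧ ρ x ≤ 1) →
  (∀ a ∈ F, ((a.1.filter (fun x => ρ x ≠ 0)).card : ℝ) ≤ L) →
  Integrable (fun E => (supF F hF (eA E) - supF F hF (eB E)) ^ 2) (PN q ρ) ∧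
  ∫ E, (supF F hF (eA E) - supF F hF (eB E)) ^ 2 ∂(PN q ρ) ≤ C * (r * L)

/-- Every maximizer contains `x`. -/
def Crit (F : Finset (Finset Site × ℝ)) (hF : F.Nonempty) (ω : Env) (x : Site) : Prop :=
  ∀ a ∈ F, valF a ω = supF F hF ω → x ∈ a.1

theorem mp_int {α β : Type*} [MeasurableSpace α] [MeasurableSpace β] {μ : Measure α}
    {ν : Measure β} {g : α → β} (hg : MeasurePreserving g μ ν) {f : β → ℝ}
    (hf : AEStronglyMeasurable f ν) : ∫ x, f (g x) ∂μ = ∫ y, f y ∂ν := by
  rw [← hg.map_eq] at hf ⊢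
  rw [integral_map hg.aemeasurable hf]

section family

variable (F : Finset (Finset Site × ℝ)) (hF : F.Nonempty)

open Classical in
/-- All sites of the family. -/
noncomputable def sitesF (F : Finset (Finset Site × ℝ)) : Finset Site := F.biUnion (fun a => a.1)

theorem measurable_valF (a : Finset Site × ℝ) : Measurable (valF a) := by
  unfold valF
  refine measurable_const.add (Finset.measurable_sum _ fun x _ => ?_)
  exact (measurable_from_nat (f := fun k : ℕ => (k : ℝ))).comp (measurable_pi_apply x)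

theorem nice_supF : Nice (sitesF F) (supF F hF) := by
  classical
  constructor
  · intro ω ω' h
    unfold supF
    refine Finset.sup'_congr hF rfl fun a ha => ?_
    unfold valF
    congr 1
    refine Finset.sum_congr rfl fun x hx => ?_
    rw [h x (Finset.mem_biUnion.2 ⟨a, ha, hx⟩)]
  · refine ⟨1 + ∑ a ∈ F, |a.2|, by positivity, fun ω => ?_⟩
    obtain ⟨a, ha, he⟩ := Finset.exists_mem_eq_sup' hF (fun a => valF a ω)
    unfold supF
    rw [he]
    unfold valF
    have h1 : ∑ x ∈ a.1, (ω x : ℝ) ≤ ∑ x ∈ sitesF F, (ω x : ℝ) :=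
      Finset.sum_le_sum_of_subset_of_nonneg (fun x hx => Finset.mem_biUnion.2 ⟨a, ha, hx⟩)
        fun _ _ _ => Nat.cast_nonneg _
    have h2 : |a.2| ≤ ∑ a ∈ F, |a.2| :=
      Finset.single_le_sum (f := fun a : Finset Site × ℝ => |a.2|) (fun _ _ => abs_nonneg _) ha
    have h3 : 0 ≤ ∑ x ∈ a.1, (ω x : ℝ) := Finset.sum_nonneg fun _ _ => Nat.cast_nonneg _
    have h4 : 0 ≤ ∑ a ∈ F, |a.2| := Finset.sum_nonneg fun _ _ => abs_nonneg _
    calc |a.2 + ∑ x ∈ a.1, (ω x : ℝ)| ≤ |a.2| + |∑ x ∈ a.1, (ω x : ℝ)| := abs_add_le _ _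
      _ = |a.2| + ∑ x ∈ a.1, (ω x : ℝ) := by rw [abs_of_nonneg h3]
      _ ≤ (1 + ∑ a ∈ F, |a.2|) * (1 + ∑ x ∈ sitesF F, (ω x : ℝ)) := by nlinarith

theorem valF_update_of_mem (a : Finset Site × ℝ) (ω : Env) {x : Site} (hx : x ∈ a.1) (k : ℕ) :
    valF a (Function.update ω x k) = valF a (Function.update ω x 0) + k := by
  classical
  unfold valF
  rw [← Finset.add_sum_erase _ _ hx, ← Finset.add_sum_erase _ _ hx]
  have : ∀ j : ℕ, ∑ y ∈ a.1.erase x, ((Function.update ω x j y : ℕ) : ℝ) =
      ∑ y ∈ a.1.erase x, (ω y : ℝ) := by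
    intro j
    refine Finset.sum_congr rfl fun y hy => ?_
    rw [Function.update_of_ne (Finset.ne_of_mem_erase hy)]
  rw [this, this, Function.update_self, Function.update_self]
  push_cast
  ring

theorem valF_update_of_notMem (a : Finset Site × ℝ) (ω : Env) {x : Site} (hx : x ∉ a.1) (k : ℕ) :
    valF a (Function.update ω x k) = valF a ω := by
  unfold valF
  congr 1
  refine Finset.sum_congr rfl fun y hy => ?_
  have : y ≠ x := fun h => hx (h ▸ hy)
  rw [Function.update_of_ne this]

/-- One-site structure of the maximum. -/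
theorem supF_update (ω : Env) (x : Site) :
    (∀ k : ℕ, supF F hF (Function.update ω x k) = supF F hF (Function.update ω x 0)) ∨
    ∃ β s : ℝ, (∀ k : ℕ, supF F hF (Function.update ω x k) = β + max s (k : ℝ)) ∧
      ∀ k : ℕ, s < k → Crit F hF (Function.update ω x k) x := by
  classical
  by_cases h1 : ∃ a ∈ F, x ∈ a.1
  · right
    have hF1 : (F.filter (fun a => x ∈ a.1)).Nonempty := by
      obtain ⟨a, ha, hx⟩ := h1
      exact ⟨a, Finset.mem_filter.2 ⟨ha, hx⟩⟩
    set β := (F.filter (fun a => x ∈ a.1)).sup' hF1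
      (fun a => valF a (Function.update ω x 0)) with hβ
    have hle1 : ∀ a ∈ F, x ∈ a.1 → ∀ k : ℕ, valF a (Function.update ω x k) ≤ β + k := by
      intro a ha hx k
      rw [valF_update_of_mem a ω hx k]
      have := Finset.le_sup' (fun a => valF a (Function.update ω x 0))
        (Finset.mem_filter.2 ⟨ha, hx⟩ : a ∈ F.filter (fun a => x ∈ a.1))
      linarith
    obtain ⟨b, hb, hbe⟩ := Finset.exists_mem_eq_sup' hF1
      (fun a => valF a (Function.update ω x 0))
    rw [Finset.mem_filter] at hb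
    have hge1 : ∀ k : ℕ, β + k ≤ supF F hF (Function.update ω x k) := by
      intro k
      have h2 := valF_update_of_mem b ω hb.2 k
      rw [← hbe] at h2
      rw [← h2]
      exact Finset.le_sup' (fun a => valF a (Function.update ω x k)) hb.1
    by_cases h0 : ∃ a ∈ F, x ∉ a.1
    · have hF0 : (F.filter (fun a => x ∉ a.1)).Nonempty := by
        obtain ⟨a, ha, hx⟩ := h0
        exact ⟨a, Finset.mem_filter.2 ⟨ha, hx⟩⟩
      set α := (F.filter (fun a => x ∉ a.1)).sup' hF0 (fun a => valF a ω) with hα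
      have hle0 : ∀ a ∈ F, x ∉ a.1 → valF a ω ≤ α := fun a ha hx =>
        Finset.le_sup' (fun a => valF a ω)
          (Finset.mem_filter.2 ⟨ha, hx⟩ : a ∈ F.filter (fun a => x ∉ a.1))
      obtain ⟨c, hc, hce⟩ := Finset.exists_mem_eq_sup' hF0 (fun a => valF a ω)
      rw [Finset.mem_filter] at hc
      have hval : ∀ k : ℕ, supF F hF (Function.update ω x k) = max α (β + k) := by
        intro k
        apply le_antisymm
        · refine Finset.sup'_le _ _ fun a ha => ?_
          by_cases hx : x ∈ a.1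
          · exact (hle1 a ha hx k).trans (le_max_right _ _)
          · rw [valF_update_of_notMem a ω hx k]
            exact (hle0 a ha hx).trans (le_max_left _ _)
        · refine max_le ?_ (hge1 k)
          rw [hα, hce, ← valF_update_of_notMem c ω hc.2 k]
          exact Finset.le_sup' (fun a => valF a (Function.update ω x k)) hc.1
      refine ⟨β, α - β, fun k => ?_, fun k hk => ?_⟩
      · rw [hval k, ← max_add_add_left]
        congr 1
        ring
      · intro a ha he
        by_contra hx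
        rw [hval k, valF_update_of_notMem a ω hx k] at he
        have h3 := hle0 a ha hx
        have h4 : β + k ≤ max α (β + k) := le_max_right _ _
        linarith
    · push Not at h0
      have hval : ∀ k : ℕ, supF F hF (Function.update ω x k) = β + k := by
        intro k
        apply le_antisymm
        · refine Finset.sup'_le _ _ fun a ha => hle1 a ha (h0 a ha) k
        · exact hge1 k
      refine ⟨β, -1, fun k => ?_, fun k _ => fun a ha _ => h0 a ha⟩
      have : (-1 : ℝ) ≤ k := by
        have : (0 : ℝ) ≤ k := Nat.cast_nonneg k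
        linarith
      rw [hval k, max_eq_right this]
  · left
    push Not at h1
    intro k
    unfold supF
    refine Finset.sup'_congr hF rfl fun a ha => ?_
    rw [valF_update_of_notMem a ω (h1 a ha) k, valF_update_of_notMem a ω (h1 a ha) 0]

theorem measurableSet_crit (hNIC : T_NIC) (x : Site) : MeasurableSet {ω | Crit F hF ω x} := by
  have hm : Measurable (supF F hF) := hNIC.1 _ _ (nice_supF F hF)
  have : {ω | Crit F hF ω x} = ⋂ a ∈ F, {ω | valF a ω = supF F hF ω → x ∈ a.1} := by
    ext ω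
    simp [Crit]
  rw [this]
  refine Finset.measurableSet_biInter _ fun a _ => ?_
  by_cases hx : x ∈ a.1
  · simp [hx]
  · have e : {ω | valF a ω = supF F hF ω → x ∈ a.1} = {ω | valF a ω = supF F hF ω}ᶜ := by
      ext ω
      simp [hx]
    rw [e]
    exact (measurableSet_eq_fun (measurable_valF a) hm).compl

/-- Pointwise count of the critical noisy sites. -/
theorem sum_crit_le (ρ : Site → ℝ) (r L : ℝ) (hρ : ∀ x, 0 ≤ ρ x ∧ ρ x ≤ r ∧ ρ x ≤ 1)
    (hL : ∀ a ∈ F, ((a.1.filter (fun x => ρ x ≠ 0)).card : ℝ) ≤ L) (ω : Env) (S : Finset Site) :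
    ∑ x ∈ S, ρ x * Set.indicator {ω | Crit F hF ω x} (fun _ => (1 : ℝ)) ω ≤ r * L := by
  classical
  have hr : 0 ≤ r := (hρ 0).1.trans (hρ 0).2.1
  obtain ⟨a, ha, he⟩ := Finset.exists_mem_eq_sup' hF (fun a => valF a ω)
  have h1 : ∀ x ∈ S, ρ x * Set.indicator {ω | Crit F hF ω x} (fun _ => (1 : ℝ)) ω ≤
      if x ∈ a.1.filter (fun x => ρ x ≠ 0) then r else 0 := by
    intro x _
    by_cases hc : Crit F hF ω x
    · have hxa : x ∈ a.1 := hc a ha he.symm
      rw [Set.indicator_of_mem (show ω ∈ {ω | Crit F hF ω x} from hc), mul_one]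
      by_cases h0 : ρ x = 0
      · rw [h0]
        split_ifs <;> linarith
      · rw [if_pos (Finset.mem_filter.2 ⟨hxa, h0⟩)]
        exact (hρ x).2.1
    · rw [Set.indicator_of_notMem (show ω ∉ {ω | Crit F hF ω x} from hc), mul_zero]
      split_ifs <;> linarith
  refine (Finset.sum_le_sum h1).trans ?_
  rw [← Finset.sum_filter, Finset.sum_const, nsmul_eq_mul]
  have h2 : ((S.filter (fun x => x ∈ a.1.filter (fun x => ρ x ≠ 0))).card : ℝ) ≤
      ((a.1.filter (fun x => ρ x ≠ 0)).card : ℝ) := by
    exact_mod_cast Finset.card_le_card fun x hx => (Finset.mem_filter.1 hx).2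
  have h3 := h2.trans (hL a ha)
  rw [mul_comm]
  exact mul_le_mul_of_nonneg_left h3 hr

end family

end Pool.Agent.H97.NF
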